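import Pool.Agent.HP42.SQ.Exact3
import Mathlib.NumberTheory.Chebyshev

/-!
For a positive proportion of the `n` there is an abc triple with square part `n` and
`c > rad (a b c) ^ (3/4)` (helper42).
-/

set_option autoImplicit false

namespace Pool.Agent.HP42.UF

open Finset Pool.Agent.H785R2.ABC
open Pool.Agent.HP42.SQ (class_card sum_inv_odd rad_sqf rad_mul_le rad_pow)

theorem pi_small (δ : ℝ) (hδ : 0 < δ) : ∃ X0 : ℕ, ∀ x : ℕ, X0 ≤ x →
    (((range (x + 1)).filter Nat.Prime).card : ℝ) ≤ δ * x := by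
  have h1 := Chebyshev.eventually_primeCounting_le (ε := 1) one_pos
  have h2 := Real.tendsto_log_atTop.eventually_ge_atTop ((Real.log 4 + 1) / δ)
  obtain ⟨X, hX⟩ := Filter.eventually_atTop.1 (h1.and (h2.and (Filter.eventually_gt_atTop 1)))
  refine ⟨⌈X⌉₊, fun x hx => ?_⟩
  have hxr : X ≤ (x : ℝ) := (Nat.le_ceil X).trans (by exact_mod_cast hx)
  obtain ⟨a1, a2, a3⟩ := hX x hxr
  rw [Nat.floor_natCast] at a1
  have e : Nat.primeCounting x = ((range (x + 1)).filter Nat.Prime).card := by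
    rw [Nat.primeCounting, Nat.primeCounting', Nat.count_eq_card_filter_range]
  rw [e] at a1
  refine a1.trans ?_
  have hlog : 0 < Real.log x := Real.log_pos a3
  rw [div_le_iff₀ hlog]
  rw [div_le_iff₀ hδ] at a2
  have hx0 : (0 : ℝ) < x := by linarith
  nlinarith

theorem quad_root {p : ℕ} (hp : p.Prime) (h5 : 5 ≤ p) {n n0 : ℤ} (h : (p : ℤ) ^ 2 ∣ n ^ 2 + n + 1)
    (h0 : (p : ℤ) ^ 2 ∣ n0 ^ 2 + n0 + 1) :
    (p : ℤ) ^ 2 ∣ n - n0 ∨ (p : ℤ) ^ 2 ∣ n + n0 + 1 := by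
  have hpp : Prime (p : ℤ) := Nat.prime_iff_prime_int.1 hp
  have hd : (p : ℤ) ^ 2 ∣ (n - n0) * (n + n0 + 1) := by
    have e : (n - n0) * (n + n0 + 1) = (n ^ 2 + n + 1) - (n0 ^ 2 + n0 + 1) := by ring
    rw [e]
    exact dvd_sub h h0
  have hcop : ∀ x : ℤ, ¬ (p : ℤ) ∣ x → IsCoprime ((p : ℤ) ^ 2) x := fun x hx =>
    IsCoprime.pow_left ((Prime.coprime_iff_not_dvd hpp).2 hx)
  by_cases h1 : (p : ℤ) ∣ n - n0
  · by_cases h2 : (p : ℤ) ∣ n + n0 + 1
    · exfalso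
      have h3 : (p : ℤ) ∣ 2 * n + 1 := by
        have := dvd_add h1 h2
        have e : n - n0 + (n + n0 + 1) = 2 * n + 1 := by ring
        rwa [e] at this
      have h4 : (p : ℤ) ∣ 3 := by
        have a1 : (p : ℤ) ∣ n ^ 2 + n + 1 := (dvd_pow_self _ two_ne_zero).trans h
        have a2 : (p : ℤ) ∣ 4 * (n ^ 2 + n + 1) - (2 * n + 1) * (2 * n + 1) :=
          dvd_sub (a1.mul_left 4) (h3.mul_left _)
        have e : 4 * (n ^ 2 + n + 1) - (2 * n + 1) * (2 * n + 1) = 3 := by ring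
        rwa [e] at a2
      have h6 : p ∣ 3 := by exact_mod_cast h4
      have := Nat.le_of_dvd (by norm_num) h6
      omega
    · left
      exact (hcop _ h2).dvd_of_dvd_mul_right hd
  · right
    exact (hcop _ h1).dvd_of_dvd_mul_left hd

/-- the quadratic factor -/
def qq (t : ℕ) : ℕ := (36 * t + 2) ^ 2 + (36 * t + 2) + 1

theorem cop36 {p : ℕ} (hp : p.Prime) (h5 : 5 ≤ p) : Nat.Coprime 36 (p ^ 2) := by
  refine Nat.Coprime.pow_right 2 ?_
  rw [Nat.coprime_comm, hp.coprime_iff_not_dvd]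
  intro h
  have e : 36 = 2 ^ 2 * 3 ^ 2 := by norm_num
  rw [e] at h
  rcases hp.dvd_mul.1 h with h | h
  · have := (Nat.prime_dvd_prime_iff_eq hp Nat.prime_two).1 (hp.dvd_of_dvd_pow h)
    omega
  · have := (Nat.prime_dvd_prime_iff_eq hp Nat.prime_three).1 (hp.dvd_of_dvd_pow h)
    omega

theorem quad_card {p T : ℕ} (hp : p.Prime) (h5 : 5 ≤ p) :
    (((Ioc 0 (0 + T)).filter fun t => p ^ 2 ∣ qq t).card : ℝ) ≤ 2 * (T / (p : ℝ) ^ 2 + 1) := by
  classical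
  rcases Finset.eq_empty_or_nonempty ((Ioc 0 (0 + T)).filter fun t => p ^ 2 ∣ qq t) with h | h
  · rw [h]
    simp only [card_empty, Nat.cast_zero]
    positivity
  obtain ⟨t0, ht0⟩ := h
  rw [mem_filter] at ht0
  have hp0 : 0 < p ^ 2 := pow_pos hp.pos 2
  have hco := cop36 hp h5
  have hsub : ((Ioc 0 (0 + T)).filter fun t => p ^ 2 ∣ qq t) ⊆
      ((Ioc 0 (0 + T)).filter fun t => p ^ 2 ∣ 36 * t + 36 * ((p ^ 2 - 1) * t0)) ∪
      ((Ioc 0 (0 + T)).filter fun t => p ^ 2 ∣ 36 * t + (36 * t0 + 5)) := by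
    intro t ht
    rw [mem_filter] at ht
    rw [mem_union, mem_filter, mem_filter]
    have q1 : (p : ℤ) ^ 2 ∣ ((36 * t + 2 : ℕ) : ℤ) ^ 2 + ((36 * t + 2 : ℕ) : ℤ) + 1 := by
      have := ht.2
      unfold qq at this
      exact_mod_cast this
    have q2 : (p : ℤ) ^ 2 ∣ ((36 * t0 + 2 : ℕ) : ℤ) ^ 2 + ((36 * t0 + 2 : ℕ) : ℤ) + 1 := by
      have := ht0.2
      unfold qq at this
      exact_mod_cast this
    rcases quad_root hp h5 q1 q2 with h | h
    · left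
      refine ⟨ht.1, ?_⟩
      have : ((p ^ 2 : ℕ) : ℤ) ∣ ((36 * t + 36 * ((p ^ 2 - 1) * t0) : ℕ) : ℤ) := by
        have e : ((36 * t + 36 * ((p ^ 2 - 1) * t0) : ℕ) : ℤ) =
            (((36 * t + 2 : ℕ) : ℤ) - ((36 * t0 + 2 : ℕ) : ℤ)) + (p : ℤ) ^ 2 * (36 * t0) := by
          rw [Nat.cast_add, Nat.cast_mul, Nat.cast_mul, Nat.cast_mul, Nat.cast_sub hp0]
          push_cast
          ring
        rw [e]
        push_cast
        push_cast at h
        exact dvd_add h (Dvd.intro _ rfl)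
      exact_mod_cast this
    · right
      refine ⟨ht.1, ?_⟩
      have : ((p ^ 2 : ℕ) : ℤ) ∣ ((36 * t + (36 * t0 + 5) : ℕ) : ℤ) := by
        have e : ((36 * t + (36 * t0 + 5) : ℕ) : ℤ) =
            ((36 * t + 2 : ℕ) : ℤ) + ((36 * t0 + 2 : ℕ) : ℤ) + 1 := by
          push_cast
          ring
        rw [e]
        push_cast
        push_cast at h
        exact h
      exact_mod_cast this
  have h1 := class_card (p ^ 2) 36 (36 * ((p ^ 2 - 1) * t0)) 0 T hp0 hco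
  have h2 := class_card (p ^ 2) 36 (36 * t0 + 5) 0 T hp0 hco
  have h3 : (((Ioc 0 (0 + T)).filter fun t => p ^ 2 ∣ qq t).card : ℝ) ≤
      (((Ioc 0 (0 + T)).filter fun t => p ^ 2 ∣ 36 * t + 36 * ((p ^ 2 - 1) * t0)).card : ℝ) +
      (((Ioc 0 (0 + T)).filter fun t => p ^ 2 ∣ 36 * t + (36 * t0 + 5)).card : ℝ) := by
    exact_mod_cast (card_le_card hsub).trans (card_union_le _ _)
  push_cast at h1 h2
  linarith

/-- the three factors of `n (n ^ 3 - 1)` are squarefree, for `n = 36 t + 2` -/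
def Good (t : ℕ) : Prop := Squarefree (36 * t + 2) ∧ Squarefree (36 * t + 1) ∧ Squarefree (qq t)

theorem not_good {T t : ℕ} (ht : t ∈ Ioc 0 (0 + T)) (h : ¬ Good t) :
    ∃ p ∈ (range (36 * T + 3 + 1)).filter Nat.Prime, 5 ≤ p ∧ (p ^ 2 ∣ 36 * t + 2 ∨
      p ^ 2 ∣ 36 * t + 1 ∨ p ^ 2 ∣ qq t) := by
  rw [mem_Ioc] at ht
  have key : ∀ y : ℕ, ¬ Squarefree y → 0 < y → y ≤ (36 * T + 3) * (36 * T + 3) → ¬ 4 ∣ y → ¬ 9 ∣ y →
      ∃ p ∈ (range (36 * T + 3 + 1)).filter Nat.Prime, 5 ≤ p ∧ p ^ 2 ∣ y := by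
    intro y hy hy0 hyT h4 h9
    rw [Nat.squarefree_iff_prime_squarefree] at hy
    push Not at hy
    obtain ⟨p, hp, hpy⟩ := hy
    refine ⟨p, ?_, ?_, by rw [sq]; exact hpy⟩
    · rw [mem_filter, mem_range]
      refine ⟨?_, hp⟩
      by_contra hcon
      have h1 : (36 * T + 4) * (36 * T + 4) ≤ p * p := Nat.mul_le_mul (by omega) (by omega)
      have h2 := Nat.le_of_dvd hy0 hpy
      nlinarith
    · by_contra hcon
      have h2 := hp.two_le
      have hne : p ≠ 4 := by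
        rintro rfl
        exact absurd hp (by norm_num)
      have : p = 2 ∨ p = 3 := by omega
      rcases this with rfl | rfl
      · exact h4 hpy
      · exact h9 hpy
  have hq : qq t = 1296 * (t * t) + 180 * t + 7 := by
    unfold qq
    ring
  by_cases h1 : Squarefree (36 * t + 2)
  · by_cases h2 : Squarefree (36 * t + 1)
    · have h3 : ¬ Squarefree (qq t) := fun h3 => h ⟨h1, h2, h3⟩
      obtain ⟨p, p1, p2, p3⟩ := key (qq t) h3 (by rw [hq]; omega) (by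
        have : 36 * t + 3 ≤ 36 * T + 3 := by omega
        have h4 := Nat.mul_le_mul this this
        have h5 : qq t ≤ (36 * t + 3) * (36 * t + 3) := by
          rw [hq]
          have : (36 * t + 3) * (36 * t + 3) = 1296 * (t * t) + 216 * t + 9 := by ring
          omega
        omega) (by rw [hq]; omega) (by rw [hq]; omega)
      exact ⟨p, p1, p2, Or.inr (Or.inr p3)⟩
    · obtain ⟨p, p1, p2, p3⟩ := key (36 * t + 1) h2 (by omega) (by nlinarith) (by omega) (by omega)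
      exact ⟨p, p1, p2, Or.inr (Or.inl p3)⟩
  · obtain ⟨p, p1, p2, p3⟩ := key (36 * t + 2) h1 (by omega) (by nlinarith) (by omega) (by omega)
    exact ⟨p, p1, p2, Or.inl p3⟩

theorem many_good : ∃ T0 : ℕ, ∀ T : ℕ, T0 ≤ T → ∀ S : Finset ℕ, (∀ t ∈ Ioc 0 T, Good t → t ∈ S) →
    (T : ℝ) / 5 ≤ S.card := by
  classical
  obtain ⟨X0, hX0⟩ := pi_small (1 / 800) (by norm_num)
  refine ⟨X0 + 1, fun T hT S hS => ?_⟩
  have hT1 : 1 ≤ T := by omega
  obtain ⟨P, hP⟩ : ∃ P, P = ((range (36 * T + 3 + 1)).filter Nat.Prime).filter fun p => 5 ≤ p :=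
    ⟨_, rfl⟩
  have hPm : ∀ p ∈ P, p.Prime ∧ 5 ≤ p ∧ p ≤ 36 * T + 3 := by
    intro p hp
    rw [hP, mem_filter, mem_filter, mem_range] at hp
    exact ⟨hp.1.2, hp.2, by omega⟩
  have hPc : (P.card : ℝ) ≤ T / 20 := by
    have h1 := hX0 (36 * T + 3) (by omega)
    have h2 : (P.card : ℝ) ≤ (((range (36 * T + 3 + 1)).filter Nat.Prime).card : ℝ) := by
      rw [hP]
      exact_mod_cast card_le_card (filter_subset _ _)
    have h3 : (1 : ℝ) ≤ T := by exact_mod_cast hT1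
    push_cast at h1
    linarith
  have hcov : Ioc 0 (0 + T) ⊆ S ∪ P.biUnion fun p =>
      (((Ioc 0 (0 + T)).filter fun t => p ^ 2 ∣ 36 * t + 2) ∪
      ((Ioc 0 (0 + T)).filter fun t => p ^ 2 ∣ 36 * t + 1)) ∪
      ((Ioc 0 (0 + T)).filter fun t => p ^ 2 ∣ qq t) := by
    intro t ht
    rw [mem_union]
    by_cases hg : Good t
    · left
      refine hS t ?_ hg
      rwa [zero_add] at ht
    · right
      obtain ⟨p, p1, p2, p3⟩ := not_good ht hg
      rw [mem_biUnion]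
      refine ⟨p, by rw [hP, mem_filter]; exact ⟨p1, p2⟩, ?_⟩
      rw [mem_union, mem_union, mem_filter, mem_filter, mem_filter]
      rcases p3 with h | h | h
      · exact Or.inl (Or.inl ⟨ht, h⟩)
      · exact Or.inl (Or.inr ⟨ht, h⟩)
      · exact Or.inr ⟨ht, h⟩
  have h1 := (card_le_card hcov).trans (card_union_le _ _)
  rw [Nat.card_Ioc] at h1
  have h2 : (((P.biUnion fun p =>
      (((Ioc 0 (0 + T)).filter fun t => p ^ 2 ∣ 36 * t + 2) ∪
      ((Ioc 0 (0 + T)).filter fun t => p ^ 2 ∣ 36 * t + 1)) ∪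
      ((Ioc 0 (0 + T)).filter fun t => p ^ 2 ∣ qq t)).card : ℕ) : ℝ) ≤
      ∑ p ∈ P, 4 * (T / (p : ℝ) ^ 2 + 1) := by
    have g0 := card_biUnion_le (s := P) (t := fun p =>
      (((Ioc 0 (0 + T)).filter fun t => p ^ 2 ∣ 36 * t + 2) ∪
      ((Ioc 0 (0 + T)).filter fun t => p ^ 2 ∣ 36 * t + 1)) ∪
      ((Ioc 0 (0 + T)).filter fun t => p ^ 2 ∣ qq t))
    have g1 : (((P.biUnion fun p =>
      (((Ioc 0 (0 + T)).filter fun t => p ^ 2 ∣ 36 * t + 2) ∪
      ((Ioc 0 (0 + T)).filter fun t => p ^ 2 ∣ 36 * t + 1)) ∪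
      ((Ioc 0 (0 + T)).filter fun t => p ^ 2 ∣ qq t)).card : ℕ) : ℝ) ≤
      ((∑ p ∈ P, ((((Ioc 0 (0 + T)).filter fun t => p ^ 2 ∣ 36 * t + 2) ∪
      ((Ioc 0 (0 + T)).filter fun t => p ^ 2 ∣ 36 * t + 1)) ∪
      ((Ioc 0 (0 + T)).filter fun t => p ^ 2 ∣ qq t)).card : ℕ) : ℝ) := by exact_mod_cast g0
    refine g1.trans ?_
    rw [Nat.cast_sum]
    refine sum_le_sum fun p hp => ?_
    obtain ⟨p1, p2, p3⟩ := hPm p hp
    have hp0 : 0 < p ^ 2 := pow_pos p1.pos 2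
    have k1 := class_card (p ^ 2) 36 2 0 T hp0 (cop36 p1 p2)
    have k2 := class_card (p ^ 2) 36 1 0 T hp0 (cop36 p1 p2)
    have k3 := quad_card (T := T) p1 p2
    have k4 : ((((((Ioc 0 (0 + T)).filter fun t => p ^ 2 ∣ 36 * t + 2) ∪
      ((Ioc 0 (0 + T)).filter fun t => p ^ 2 ∣ 36 * t + 1)) ∪
      ((Ioc 0 (0 + T)).filter fun t => p ^ 2 ∣ qq t)).card : ℕ) : ℝ) ≤
      (((Ioc 0 (0 + T)).filter fun t => p ^ 2 ∣ 36 * t + 2).card : ℝ) +
      (((Ioc 0 (0 + T)).filter fun t => p ^ 2 ∣ 36 * t + 1).card : ℝ) +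
      (((Ioc 0 (0 + T)).filter fun t => p ^ 2 ∣ qq t).card : ℝ) := by
      have l1 := card_union_le (((Ioc 0 (0 + T)).filter fun t => p ^ 2 ∣ 36 * t + 2) ∪
        ((Ioc 0 (0 + T)).filter fun t => p ^ 2 ∣ 36 * t + 1))
        ((Ioc 0 (0 + T)).filter fun t => p ^ 2 ∣ qq t)
      have l2 := card_union_le ((Ioc 0 (0 + T)).filter fun t => p ^ 2 ∣ 36 * t + 2)
        ((Ioc 0 (0 + T)).filter fun t => p ^ 2 ∣ 36 * t + 1)
      exact_mod_cast l1.trans (Nat.add_le_add_right l2 _)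
    push_cast at k1 k2
    linarith
  have h3 : ∑ p ∈ P, 4 * (T / (p : ℝ) ^ 2 + 1) = 4 * T * ∑ p ∈ P, (1 : ℝ) / (p : ℝ) ^ 2 +
      4 * P.card := by
    rw [mul_sum]
    have : (4 : ℝ) * P.card = ∑ p ∈ P, (4 : ℝ) := by
      rw [sum_const, nsmul_eq_mul]
      ring
    rw [this, ← sum_add_distrib]
    refine sum_congr rfl fun p _ => ?_
    ring
  have h4 : ∑ p ∈ P, (1 : ℝ) / (p : ℝ) ^ 2 ≤ 5 / 36 := by
    obtain ⟨J, hJ⟩ : ∃ J, J = 18 * T + 1 := ⟨_, rfl⟩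
    have g1 : P ⊆ (Icc 2 J).image fun j => 2 * j + 1 := by
      intro p hp
      obtain ⟨p1, p2, p3⟩ := hPm p hp
      have hodd : p % 2 = 1 := by
        rcases p1.eq_two_or_odd with h | h
        · omega
        · exact h
      rw [mem_image]
      exact ⟨p / 2, mem_Icc.2 ⟨by omega, by omega⟩, by omega⟩
    have g2 : ∑ p ∈ P, (1 : ℝ) / (p : ℝ) ^ 2 ≤ ∑ p ∈ (Icc 2 J).image (fun j : ℕ => 2 * j + 1),
        (1 : ℝ) / ((p : ℕ) : ℝ) ^ 2 :=
      sum_le_sum_of_subset_of_nonneg g1 fun _ _ _ => by positivity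
    rw [sum_image (by intro a _ b _ h; simpa using h)] at g2
    refine g2.trans ?_
    have g3 := sum_inv_odd J
    have g4 : ∑ j ∈ Icc 1 J, (1 : ℝ) / ((2 * j + 1 : ℕ) : ℝ) ^ 2 =
        1 / 9 + ∑ j ∈ Icc 2 J, (1 : ℝ) / ((2 * j + 1 : ℕ) : ℝ) ^ 2 := by
      have : Icc 1 J = insert 1 (Icc 2 J) := by
        ext x
        rw [mem_insert, mem_Icc, mem_Icc]
        omega
      rw [this, sum_insert (by rw [mem_Icc]; omega)]
      norm_num
    rw [g4] at g3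
    have g5 : (0 : ℝ) ≤ 1 / ((J : ℝ) + 1) := by positivity
    linarith
  have h5 : ((0 + T - 0 : ℕ) : ℝ) = T := by
    rw [zero_add, Nat.sub_zero]
  have h6 : ((0 + T - 0 : ℕ) : ℝ) ≤ S.card + ∑ p ∈ P, 4 * (T / (p : ℝ) ^ 2 + 1) := by
    refine le_trans ?_ (add_le_add_right h2 _)
    exact_mod_cast h1
  rw [h5, h3] at h6
  have hT0 : (0 : ℝ) ≤ T := Nat.cast_nonneg T
  have h7 : 4 * (T : ℝ) * ∑ p ∈ P, (1 : ℝ) / (p : ℝ) ^ 2 ≤ 4 * T * (5 / 36) :=
    mul_le_mul_of_nonneg_left h4 (by positivity)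
  linarith

/-- the triple attached to a good `t` -/
theorem good_triple {t : ℕ} (h : Good t) : ∃ b m : ℕ, 0 < b ∧ 1 + b = (36 * t + 2) ^ 3 ∧
    1 * b * (36 * t + 2) ^ 3 = (36 * t + 2) ^ 2 * m ∧ Squarefree m ∧
    (rad (1 * b * (36 * t + 2) ^ 3) : ℝ) ^ (3 / 4 : ℝ) < (((36 * t + 2) ^ 3 : ℕ) : ℝ) := by
  obtain ⟨h1, h2, h3⟩ := h
  obtain ⟨n, hn⟩ : ∃ n, n = 36 * t + 2 := ⟨_, rfl⟩
  obtain ⟨b, hb⟩ : ∃ b, b = (36 * t + 1) * qq t := ⟨_, rfl⟩
  have hs : 1 + b = n ^ 3 := by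
    rw [hb, hn]
    unfold qq
    ring
  have hb0 : 0 < b := by
    rw [hb]
    refine Nat.mul_pos (by omega) ?_
    unfold qq
    omega
  have hcop1 : Nat.Coprime (36 * t + 1) (qq t) := by
    have e : qq t = (36 * t + 1) * (36 * t + 4) + 3 := by
      unfold qq
      ring
    rw [e, Nat.coprime_mul_left_add_right]
    rw [Nat.coprime_comm, Nat.prime_three.coprime_iff_not_dvd]
    omega
  have hcop2 : Nat.Coprime n b := by
    have e1 : Nat.Coprime (n ^ 3) b := by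
      rw [← hs, Nat.coprime_add_self_left]
      exact Nat.coprime_one_left b
    exact Nat.Coprime.coprime_dvd_left (dvd_pow_self n (by norm_num)) e1
  have hbsq : Squarefree b := by
    rw [hb]
    exact (Nat.squarefree_mul hcop1).2 ⟨h2, h3⟩
  have hnb : Squarefree (n * b) := (Nat.squarefree_mul hcop2).2 ⟨by rw [hn]; exact h1, hbsq⟩
  rw [← hn]
  have hn0 : n ≠ 0 := by omega
  refine ⟨b, n * b, hb0, hs, by ring, hnb, ?_⟩
  have hrad : rad (1 * b * n ^ 3) = n * b := by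
    have e1 : rad (1 * b * n ^ 3) = rad (n * b) := by
      rw [rad, rad, one_mul, Nat.primeFactors_mul hb0.ne' (pow_ne_zero 3 hn0),
        Nat.primeFactors_pow n (by norm_num), Nat.primeFactors_mul hn0 hb0.ne', union_comm]
    rw [e1, rad_sqf hnb]
  rw [hrad]
  have hlt : n * b < n ^ 4 := by
    calc n * b < n * n ^ 3 := Nat.mul_lt_mul_of_pos_left (by omega) (by omega)
      _ = n ^ 4 := by ring
  have hlt' : ((n * b : ℕ) : ℝ) < ((n ^ 4 : ℕ) : ℝ) := by exact_mod_cast hlt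
  have h4 := Real.rpow_lt_rpow (Nat.cast_nonneg _) hlt' (show (0 : ℝ) < 3 / 4 by norm_num)
  refine h4.trans_le (le_of_eq ?_)
  push_cast
  rw [← Real.rpow_natCast, ← Real.rpow_mul (Nat.cast_nonneg _), ← Real.rpow_natCast]
  congr 1
  norm_num

/-- a positive proportion of the square parts -/
theorem proportion : ∃ N0 : ℕ, ∀ N : ℕ, N0 ≤ N → ∀ S : Finset ℕ,
    (∀ n, 1 ≤ n → n ≤ N → (∃ b m : ℕ, 0 < b ∧ 1 + b = n ^ 3 ∧ 1 * b * n ^ 3 = n ^ 2 * m ∧
      Squarefree m ∧ (rad (1 * b * n ^ 3) : ℝ) ^ (3 / 4 : ℝ) < ((n ^ 3 : ℕ) : ℝ)) → n ∈ S) →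
    (N : ℝ) / 400 ≤ S.card := by
  classical
  obtain ⟨T0, hT0⟩ := many_good
  refine ⟨36 * T0 + 400, fun N hN S hS => ?_⟩
  obtain ⟨T, hT⟩ : ∃ T, T = (N - 2) / 36 := ⟨_, rfl⟩
  have hTT : T0 ≤ T := by omega
  have h1 := hT0 T hTT ((Ioc 0 T).filter fun t => 36 * t + 2 ∈ S) (by
    intro t ht hg
    rw [mem_filter]
    refine ⟨ht, ?_⟩
    rw [mem_Ioc] at ht
    exact hS (36 * t + 2) (by omega) (by omega) (good_triple hg))
  have h2 : ((Ioc 0 T).filter fun t => 36 * t + 2 ∈ S).card ≤ S.card := by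
    refine card_le_card_of_injOn (fun t => 36 * t + 2) ?_ ?_
    · intro t ht
      exact (mem_filter.1 (mem_coe.1 ht)).2
    · intro a _ b _ h
      simp only at h
      omega
  have h3 : (N : ℝ) / 80 ≤ T := by
    have : N ≤ 80 * T := by omega
    have : (N : ℝ) ≤ 80 * T := by exact_mod_cast this
    linarith
  have h4 : (((Ioc 0 T).filter fun t => 36 * t + 2 ∈ S).card : ℝ) ≤ S.card := by exact_mod_cast h2
  linarith

end Pool.Agent.HP42.UF
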