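import Pool.Agent.W398.FX.Class

/-!
One dependent class, with an explicit bound: the proof of `Pool.Agent.W398.FX.stmtClass_of`, with
the constants in the statement (helper42).
-/

set_option autoImplicit false

namespace Pool.Agent.HP42.UF

open Finset Pool.Agent.W16.FX Pool.Agent.W398.FX

/-- FX-CLASS with explicit constants -/
theorem cls (u : ℤ) (hu : 1 ≤ u) (ε : ℝ) (hε : 0 < ε) (CR : ℕ) (CZ C1 : ℝ)
    (hR : ∀ M N α β γ δ g : ℤ, 1 ≤ M → 1 ≤ N → g ≠ 0 → α * δ - β * γ ≠ 0 →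
      ∀ T : Finset Quad, (∀ t ∈ T, 0 < t.p ∧ 0 < t.p' ∧ IsCoprime t.p t.p' ∧
        M * t.q * t.p ^ 3 + u = N * t.q' * t.p' ^ 3 ∧
        α * t.p + γ * t.p' = g * t.q' ∧ β * t.p + δ * t.p' = -(g * t.q)) →
      (∀ t ∈ T, ∀ s ∈ T, t.p' ≤ 256 * s.p') → T.card ≤ CR)
    (hP : StmtPhi) (hCZ : 0 < CZ)
    (hZ : ∀ M N : ℤ, 1 ≤ M → 1 ≤ N → ∀ s : Quad, Sol u M N s →
      ∀ T : Finset Quad, (∀ t ∈ T, Sol u M N t ∧ Near t s) →
      ∀ Φ : Fin 4 → ℤ, Φ ≠ 0 → Φ 0 * Φ 3 = Φ 1 * Φ 2 → (∀ t ∈ T, ∑ i, Φ i * t.vec i = 0) →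
      (T.card : ℝ) ≤ CZ * (1 + (s.q : ℝ) * s.q' / s.c N))
    (hC1 : 0 < C1) (hdiv : ∀ n : ℕ, 1 ≤ n → (n.divisors.card : ℝ) ≤ C1 * (n : ℝ) ^ (ε / 12)) :
    ∀ M N : ℤ, 1 ≤ M → 1 ≤ N →
    ∀ s : Quad, Sol u M N s → ∀ T : Finset Quad, (∀ t ∈ T, Sol u M N t ∧ Near t s) → Dep T →
    (T.card : ℝ) ≤ (CZ + 2 * CR * C1 * ((2 : ℝ) ^ 61) ^ (ε / 12) + 1) * (s.c N : ℝ) ^ ε *
      (1 + (s.q : ℝ) * s.q' / s.c N) := by
  intro M N hM hN s hs T hT hdep
  obtain ⟨hc1, b1, b2, b3, b4⟩ := sol_c hu hM hN hs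
  set c : ℤ := s.c N with hc
  have hcR : (1 : ℝ) ≤ c := by exact_mod_cast hc1
  have hcε : 1 ≤ (c : ℝ) ^ ε := Real.one_le_rpow hcR hε.le
  have hq0 : 0 ≤ (s.q : ℝ) * s.q' / c := by
    have h3 : (0 : ℝ) < s.q := by exact_mod_cast hs.q_pos
    have h4 : (0 : ℝ) < s.q' := by exact_mod_cast hs.q'_pos
    positivity
  -- bounds for the coordinates
  have hbd : ∀ t ∈ T, t.p ≤ 16 * c ∧ t.p' ≤ 16 * c ∧ t.q ≤ 16 * c ∧ t.q' ≤ 16 * c := by
    intro t ht
    obtain ⟨-, hn⟩ := hT t ht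
    have := hn.p_le
    have := hn.p'_le
    have := hn.q_le
    have := hn.q'_le
    exact ⟨by linarith, by linarith, by linarith, by linarith⟩
  have hB1 : (1 : ℤ) ≤ 256 * c ^ 2 := by nlinarith
  have hmul : ∀ x y : ℤ, 0 < x → 0 < y → x ≤ 16 * c → y ≤ 16 * c → |x * y| ≤ 256 * c ^ 2 := by
    intro x y hx hy h1 h2
    rw [abs_of_pos (mul_pos hx hy)]
    nlinarith
  obtain ⟨Φ, hΦ0, hΦB, hΦ⟩ := hP (T.image Quad.vec) (256 * c ^ 2) hB1 (by
      intro v hv i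
      rw [mem_image] at hv
      obtain ⟨t, ht, rfl⟩ := hv
      obtain ⟨h1, h2, h3, h4⟩ := hbd t ht
      obtain ⟨hsol, -⟩ := hT t ht
      fin_cases i
      · exact hmul _ _ hsol.p_pos hsol.q_pos h1 h3
      · exact hmul _ _ hsol.p_pos hsol.q'_pos h1 h4
      · exact hmul _ _ hsol.p'_pos hsol.q_pos h2 h3
      · exact hmul _ _ hsol.p'_pos hsol.q'_pos h2 h4) (by
      intro a ha b hb d hd e he
      rw [mem_image] at ha hb hd he
      obtain ⟨t1, ht1, rfl⟩ := ha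
      obtain ⟨t2, ht2, rfl⟩ := hb
      obtain ⟨t3, ht3, rfl⟩ := hd
      obtain ⟨t4, ht4, rfl⟩ := he
      exact hdep t1 ht1 t2 ht2 t3 ht3 t4 ht4)
  have hΦT : ∀ t ∈ T, ∑ i, Φ i * t.vec i = 0 := fun t ht => hΦ _ (mem_image_of_mem _ ht)
  by_cases h0 : Φ 0 * Φ 3 = Φ 1 * Φ 2
  · have h1 := hZ M N hM hN s hs T hT Φ hΦ0 h0 hΦT
    refine h1.trans ?_
    rw [← hc]
    apply mul_le_mul_of_nonneg_right _ (by positivity)
    have h2 : 0 ≤ 2 * (CR : ℝ) * C1 * ((2 : ℝ) ^ 61) ^ (ε / 12) := by positivity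
    nlinarith
  · set Dt : ℤ := Φ 0 * Φ 3 - Φ 1 * Φ 2 with hDt
    have hDt0 : Dt ≠ 0 := sub_ne_zero.2 h0
    -- the integer `g`
    have key : ∀ t ∈ T, ∃ g : ℤ, g ≠ 0 ∧ g ∣ Dt ∧ Φ 0 * t.p + Φ 2 * t.p' = g * t.q' ∧
        Φ 1 * t.p + Φ 3 * t.p' = -(g * t.q) := by
      intro t ht
      obtain ⟨hsol, -⟩ := hT t ht
      have e := hΦT t ht
      rw [sum_vec] at e
      have hcop := hsol.cop
      have hqq : IsCoprime t.q t.q' := by
        have h1 : IsCoprime (M * t.q) (N * t.q') :=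
          (hcop.of_mul_left_left).of_mul_right_left
        exact (h1.of_mul_left_right).of_mul_right_right
      have hpp : IsCoprime t.p t.p' := (hcop.of_mul_left_right).of_mul_right_right
      have e1 : t.q * (Φ 0 * t.p + Φ 2 * t.p') = -(t.q' * (Φ 1 * t.p + Φ 3 * t.p')) := by
        linear_combination e
      have h2 : t.q' ∣ t.q * (Φ 0 * t.p + Φ 2 * t.p') := ⟨-(Φ 1 * t.p + Φ 3 * t.p'), by
        rw [e1]; ring⟩
      obtain ⟨g, hg⟩ := hqq.symm.dvd_of_dvd_mul_left h2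
      have hq' := hsol.q'_pos
      have hp := hsol.p_pos
      have hg2 : Φ 1 * t.p + Φ 3 * t.p' = -(g * t.q) := by
        apply mul_left_cancel₀ hq'.ne'
        rw [hg] at e1
        linear_combination e1
      have a1 : Dt * t.p = g * (Φ 3 * t.q' + Φ 2 * t.q) := by
        rw [hDt]
        linear_combination (Φ 3) * hg - (Φ 2) * hg2
      have a2 : Dt * t.p' = -(g * (Φ 0 * t.q + Φ 1 * t.q')) := by
        rw [hDt]
        linear_combination (Φ 0) * hg2 - (Φ 1) * hg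
      refine ⟨g, ?_, ?_, by rw [hg]; ring, hg2⟩
      · rintro rfl
        rw [zero_mul] at a1
        rcases mul_eq_zero.1 a1 with h | h
        · exact hDt0 h
        · exact hp.ne' h
      · obtain ⟨x, y, hxy⟩ := hpp
        refine ⟨x * (Φ 3 * t.q' + Φ 2 * t.q) - y * (Φ 0 * t.q + Φ 1 * t.q'), ?_⟩
        calc Dt = x * (Dt * t.p) + y * (Dt * t.p') := by linear_combination (-Dt) * hxy
          _ = _ := by rw [a1, a2]; ring
    choose! g hg using key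
    have hmaps : ∀ t ∈ T, g t ∈ dvs Dt := fun t ht => mem_dvs hDt0 (hg t ht).2.1
    have hcard : T.card ≤ CR * (dvs Dt).card := by
      refine Finset.card_le_mul_card_image_of_maps_to hmaps CR ?_
      intro x hx
      by_cases hx0 : x = 0
      · have : T.filter (fun t => g t = x) = ∅ := by
          rw [Finset.filter_eq_empty_iff]
          intro t ht h
          exact (hg t ht).1 (h.trans hx0)
        rw [this]
        exact Nat.zero_le _
      · refine hR M N (Φ 0) (Φ 1) (Φ 2) (Φ 3) x hM hN hx0 hDt0 _ ?_ ?_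
        · intro t ht
          rw [mem_filter] at ht
          obtain ⟨ht, rfl⟩ := ht
          obtain ⟨hsol, -⟩ := hT t ht
          have hpp : IsCoprime t.p t.p' := (hsol.cop.of_mul_left_right).of_mul_right_right
          exact ⟨hsol.p_pos, hsol.p'_pos, hpp, hsol.eq, (hg t ht).2.2.1, (hg t ht).2.2.2⟩
        · intro t ht t' ht'
          have h1 := (hT t (mem_filter.1 ht).1).2.p'_le
          have h2 := (hT t' (mem_filter.1 ht').1).2.p'_ge
          linarith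
    -- the size of the determinant
    have hDtB : (Dt.natAbs : ℝ) ≤ 2 ^ 61 * (c : ℝ) ^ 12 := by
      have h1 : |Dt| ≤ 2 * (64 * (256 * c ^ 2) ^ 3) ^ 2 := by
        rw [hDt]
        have h2 : |Φ 0 * Φ 3| ≤ (64 * (256 * c ^ 2) ^ 3) * (64 * (256 * c ^ 2) ^ 3) := by
          rw [abs_mul]
          exact mul_le_mul (hΦB 0) (hΦB 3) (abs_nonneg _) (by positivity)
        have h3 : |Φ 1 * Φ 2| ≤ (64 * (256 * c ^ 2) ^ 3) * (64 * (256 * c ^ 2) ^ 3) := by
          rw [abs_mul]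
          exact mul_le_mul (hΦB 1) (hΦB 2) (abs_nonneg _) (by positivity)
        have h4 := abs_sub (Φ 0 * Φ 3) (Φ 1 * Φ 2)
        linarith
      have h5 : |Dt| ≤ 2 ^ 61 * c ^ 12 := by
        refine h1.trans (le_of_eq ?_)
        ring
      rw [Nat.cast_natAbs]
      exact_mod_cast h5
    have hDt1 : 1 ≤ Dt.natAbs := Nat.one_le_iff_ne_zero.2 (Int.natAbs_ne_zero.2 hDt0)
    have h6 := hdiv Dt.natAbs hDt1
    have h7 : ((Dt.natAbs : ℕ) : ℝ) ^ (ε / 12) ≤ ((2 : ℝ) ^ 61) ^ (ε / 12) * (c : ℝ) ^ ε := by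
      refine (Real.rpow_le_rpow (Nat.cast_nonneg _) hDtB (by positivity)).trans (le_of_eq ?_)
      rw [Real.mul_rpow (by positivity) (by positivity)]
      congr 1
      rw [← Real.rpow_natCast, ← Real.rpow_mul (by linarith)]
      congr 1
      push_cast
      ring
    have h8 : (T.card : ℝ) ≤ CR * (2 * (Dt.natAbs.divisors.card : ℝ)) := by
      have h9 : T.card ≤ CR * (2 * Dt.natAbs.divisors.card) :=
        hcard.trans (Nat.mul_le_mul_left _ (card_dvs Dt))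
      exact_mod_cast h9
    calc (T.card : ℝ) ≤ CR * (2 * (Dt.natAbs.divisors.card : ℝ)) := h8
      _ ≤ CR * (2 * (C1 * (((2 : ℝ) ^ 61) ^ (ε / 12) * (c : ℝ) ^ ε))) := by
          gcongr
          exact h6.trans (mul_le_mul_of_nonneg_left h7 hC1.le)
      _ = (2 * CR * C1 * ((2 : ℝ) ^ 61) ^ (ε / 12)) * (c : ℝ) ^ ε * 1 := by ring
      _ ≤ (CZ + 2 * CR * C1 * ((2 : ℝ) ^ 61) ^ (ε / 12) + 1) * (c : ℝ) ^ ε *
          (1 + (s.q : ℝ) * s.q' / c) := by
          gcongr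
          · linarith
          · linarith

end Pool.Agent.HP42.UF
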