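import Pool.Agent.W118.FX.Det

/-!
The determinant step, with an explicit bound: the proof of `Pool.Agent.W118.FX.stmtDet`, with the
constant in the statement (helper42).
-/

set_option autoImplicit false

namespace Pool.Agent.HP42.UF

open Finset Pool.Agent.W16.FX Pool.Agent.W118.FX

/-- FX-DET with an explicit constant -/
theorem det (u : ℤ) (hu : 1 ≤ u) : ∀ (η : ℝ) (M N : ℤ), 0 ≤ η → 1 ≤ M → 1 ≤ N →
    ∀ s : Quad, Sol u M N s → (s.prod : ℝ) ≤ (s.c N : ℝ) ^ (1 + η) → 2 ^ 17 * u ≤ s.c N →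
    ∀ T : Finset Quad, (∀ t ∈ T, Sol u M N t ∧ Near t s) → ∀ τ : ℝ, 0 < τ →
    (∀ t ∈ T, τ ≤ (t.p : ℝ) / t.p' ∧ (t.p : ℝ) / t.p' ≤
      τ * (1 + 1 / (2 ^ 110 * (u : ℝ) ^ 2) * (s.c N : ℝ) ^ (-2 * η) *
        (s.prod : ℝ) ^ (-(1 / 3 : ℝ)))) → Dep T := by
  have huR : (1 : ℝ) ≤ (u : ℝ) := by exact_mod_cast hu
  have hlam0 : (0 : ℝ) < 1 / (2 ^ 110 * (u : ℝ) ^ 2) := by positivity
  intro η M N hη hM hN s hs hprod hc17 T hT τ hτ hτT t₁ ht₁ t₂ ht₂ t₃ ht₃ t₄ ht₄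
  set lam : ℝ := 1 / (2 ^ 110 * (u : ℝ) ^ 2) with hlam
  have hMR : (0 : ℝ) < (M : ℝ) := by exact_mod_cast (by omega : 0 < M)
  have hNR : (0 : ℝ) < (N : ℝ) := by exact_mod_cast (by omega : 0 < N)
  have hP : (0 : ℝ) < (s.p : ℝ) := by exact_mod_cast hs.p_pos
  have hP' : (0 : ℝ) < (s.p' : ℝ) := by exact_mod_cast hs.p'_pos
  have hQ : (0 : ℝ) < (s.q : ℝ) := by exact_mod_cast hs.q_pos
  have hQ' : (0 : ℝ) < (s.q' : ℝ) := by exact_mod_cast hs.q'_pos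
  set c : ℝ := (s.c N : ℝ) with hcdef
  set Y : ℝ := (s.prod : ℝ) with hYdef
  have hcval : c = N * s.q' * s.p' ^ 3 := by
    rw [hcdef]
    unfold Quad.c
    push_cast
    ring
  have hYval : Y = s.p * s.p' * s.q * s.q' := by
    rw [hYdef]
    unfold Quad.prod
    push_cast
    ring
  have hc17R : (2 : ℝ) ^ 17 * u ≤ c := by
    rw [hcdef]
    exact_mod_cast hc17
  have hc0 : 0 < c := by nlinarith
  have hc1 : 1 ≤ c := by nlinarith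
  have hY1 : 1 ≤ Y := by
    have : (1 : ℤ) ≤ s.prod := by
      have h1 : 0 < s.prod := by
        unfold Quad.prod
        have := hs.p_pos
        have := hs.p'_pos
        have := hs.q_pos
        have := hs.q'_pos
        positivity
      omega
    rw [hYdef]
    exact_mod_cast this
  have hY0 : 0 < Y := by linarith
  -- the cube root and the power
  set y : ℝ := Y ^ (1 / 3 : ℝ) with hy
  set g : ℝ := c ^ η with hg
  have hy1 : 1 ≤ y := Real.one_le_rpow hY1 (by norm_num)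
  have hg1 : 1 ≤ g := Real.one_le_rpow hc1 hη
  have hy3 : y ^ 3 = Y := by
    rw [hy, ← Real.rpow_natCast, ← Real.rpow_mul hY0.le]
    norm_num
  have hyinv : Y ^ (-(1 / 3 : ℝ)) = y⁻¹ := by
    rw [Real.rpow_neg hY0.le]
  have hginv : c ^ (-2 * η) = (g ^ 2)⁻¹ := by
    rw [hg, ← Real.rpow_natCast, ← Real.rpow_mul hc0.le, ← Real.rpow_neg hc0.le]
    congr 1
    push_cast
    ring
  have hcg : c ^ (1 + η) = c * g := by
    rw [Real.rpow_add hc0, Real.rpow_one]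
  rw [hcg] at hprod
  set L : ℝ := lam * c ^ (-2 * η) * Y ^ (-(1 / 3 : ℝ)) with hLdef
  have hLval : L = lam / (g ^ 2 * y) := by
    rw [hLdef, hyinv, hginv]
    field_simp
  have hL0 : 0 < L := by
    rw [hLval]
    positivity
  have hlam1 : lam ≤ 1 := by
    rw [hlam, div_le_one (by positivity)]
    nlinarith
  have hL1 : L ≤ 1 := by
    rw [hLval, div_le_one (by positivity)]
    have : 1 ≤ g ^ 2 * y := one_le_mul_of_one_le_of_one_le (one_le_pow₀ hg1) hy1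
    linarith
  set Θ : ℝ := 65536 * u / c with hΘ
  have hΘ0 : 0 ≤ Θ := by positivity
  -- data for one member
  have hone : ∀ t ∈ T, ∃ x A B : ℝ, 0 ≤ x ∧ x ≤ L ∧ |A| ≤ 5 * L ^ 2 + Θ ∧ |B| ≤ 3 * L ^ 3 + Θ ∧
      (t.p : ℝ) ≤ 2 * τ * t.p' ∧ (u : ℝ) ≤ N * t.q' * t.p' ^ 3 / 2 ∧
      (![(t.p : ℝ) * t.q, (t.p : ℝ) * t.q', (t.p' : ℝ) * t.q, (t.p' : ℝ) * t.q'] : Fin 4 → ℝ) =
        row ((t.p' : ℝ) * t.q') (N / M) τ τ⁻¹ x A B := by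
    intro t ht
    obtain ⟨hsol, hnear⟩ := hT t ht
    obtain ⟨hτ1, hτ2⟩ := hτT t ht
    have hp : (0 : ℝ) < (t.p : ℝ) := by exact_mod_cast hsol.p_pos
    have hp' : (0 : ℝ) < (t.p' : ℝ) := by exact_mod_cast hsol.p'_pos
    have hq : (0 : ℝ) < (t.q : ℝ) := by exact_mod_cast hsol.q_pos
    have hq' : (0 : ℝ) < (t.q' : ℝ) := by exact_mod_cast hsol.q'_pos
    set x : ℝ := (t.p : ℝ) / t.p' / τ - 1 with hx
    have hx0 : 0 ≤ x := by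
      rw [hx, sub_nonneg, le_div_iff₀ hτ]
      linarith
    have hxL : x ≤ L := by
      rw [hx, sub_le_iff_le_add, div_le_iff₀ hτ]
      linarith
    have hpx : (t.p : ℝ) = τ * (1 + x) * t.p' := by
      rw [hx]
      field_simp
      ring
    have heq : (M : ℝ) * t.q * t.p ^ 3 + u = N * t.q' * t.p' ^ 3 := by
      exact_mod_cast hsol.eq
    have hct : c ≤ 65536 * ((N : ℝ) * (t.q' : ℝ) * (t.p' : ℝ) ^ 3) := by
      have h1 : (s.q' : ℝ) ≤ 16 * (t.q' : ℝ) := by exact_mod_cast hnear.q'_ge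
      have h2 : (s.p' : ℝ) ≤ 16 * (t.p' : ℝ) := by exact_mod_cast hnear.p'_ge
      rw [hcval]
      calc (N : ℝ) * (s.q' : ℝ) * (s.p' : ℝ) ^ 3
          ≤ (N : ℝ) * (16 * (t.q' : ℝ)) * (16 * (t.p' : ℝ)) ^ 3 := by gcongr
        _ = 65536 * ((N : ℝ) * (t.q' : ℝ) * (t.p' : ℝ) ^ 3) := by ring
    have hct0 : (0 : ℝ) < N * t.q' * t.p' ^ 3 := by positivity
    have hθ0 : 0 ≤ (u : ℝ) / (N * t.q' * t.p' ^ 3) := by positivity
    have hθΘ : (u : ℝ) / (N * t.q' * t.p' ^ 3) ≤ Θ := by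
      rw [hΘ, div_le_div_iff₀ hct0 hc0]
      nlinarith
    refine ⟨x, _, _, hx0, hxL, A_bound hx0 hxL hL1 hθ0 hθΘ, B_bound hx0 hxL hL1 hθ0 hθΘ, ?_, ?_,
      vec_eq hMR hNR hτ hx0 hp' hq' hpx heq _ _ rfl rfl⟩
    · rw [hpx]
      have : τ * (1 + x) ≤ 2 * τ := by nlinarith
      nlinarith
    · nlinarith
  obtain ⟨x₁, A₁, B₁, a1, a2, a3, a4, a5, a6, a7⟩ := hone t₁ ht₁
  obtain ⟨x₂, A₂, B₂, b1, b2, b3, b4, b5, b6, b7⟩ := hone t₂ ht₂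
  obtain ⟨x₃, A₃, B₃, c1, c2, c3, c4, c5, c6, c7⟩ := hone t₃ ht₃
  obtain ⟨x₄, A₄, B₄, d1, d2, d3, d4, d5, d6, d7⟩ := hone t₄ ht₄
  -- cast the determinant
  have hcast : ((Matrix.det (Matrix.of ![t₁.vec, t₂.vec, t₃.vec, t₄.vec]) : ℤ) : ℝ) =
      Matrix.det (Matrix.of ![
        (![(t₁.p : ℝ) * t₁.q, (t₁.p : ℝ) * t₁.q', (t₁.p' : ℝ) * t₁.q, (t₁.p' : ℝ) * t₁.q'] : Fin 4 → ℝ),
        ![(t₂.p : ℝ) * t₂.q, (t₂.p : ℝ) * t₂.q', (t₂.p' : ℝ) * t₂.q, (t₂.p' : ℝ) * t₂.q'],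
        ![(t₃.p : ℝ) * t₃.q, (t₃.p : ℝ) * t₃.q', (t₃.p' : ℝ) * t₃.q, (t₃.p' : ℝ) * t₃.q'],
        ![(t₄.p : ℝ) * t₄.q, (t₄.p : ℝ) * t₄.q', (t₄.p' : ℝ) * t₄.q, (t₄.p' : ℝ) * t₄.q']]) := by
    rw [det4, det4]
    unfold Quad.vec
    simp only [Matrix.cons_val]
    push_cast
    ring
  have hD := det_row (N / M : ℝ) τ τ⁻¹
    ![(t₁.p' : ℝ) * t₁.q', (t₂.p' : ℝ) * t₂.q', (t₃.p' : ℝ) * t₃.q', (t₄.p' : ℝ) * t₄.q']
    ![x₁, x₂, x₃, x₄] ![A₁, A₂, A₃, A₄] ![B₁, B₂, B₃, B₄]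
  simp only [Matrix.cons_val] at hD
  rw [a7, b7, c7, d7, hD] at hcast
  have hdet : |Matrix.det (Matrix.of ![![A₁, x₁, B₁, 1], ![A₂, x₂, B₂, 1], ![A₃, x₃, B₃, 1],
        ![A₄, x₄, B₄, 1]])| ≤ 24 * ((5 * L ^ 2 + Θ) * L * (3 * L ^ 3 + Θ)) :=
    red_bound a3 a1 a2 a4 b3 b1 b2 b4 c3 c1 c2 c4 d3 d1 d2 d4
  have hW : ∀ t ∈ T, (t.p' : ℝ) * t.q' ≤ 256 * (s.p' * s.q') := by
    intro t ht
    obtain ⟨hsol, hnear⟩ := hT t ht
    have h1 : (t.p' : ℝ) ≤ 16 * s.p' := by exact_mod_cast hnear.p'_le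
    have h2 : (t.q' : ℝ) ≤ 16 * s.q' := by exact_mod_cast hnear.q'_le
    have hp' : (0 : ℝ) < (t.p' : ℝ) := by exact_mod_cast hsol.p'_pos
    have hq' : (0 : ℝ) < (t.q' : ℝ) := by exact_mod_cast hsol.q'_pos
    calc (t.p' : ℝ) * t.q' ≤ (16 * s.p') * (16 * s.q') := by gcongr
      _ = 256 * (s.p' * s.q') := by ring
  have hW0 : ∀ t ∈ T, (0 : ℝ) < (t.p' : ℝ) * t.q' := by
    intro t ht
    have hp' : (0 : ℝ) < (t.p' : ℝ) := by exact_mod_cast (hT t ht).1.p'_pos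
    have hq' : (0 : ℝ) < (t.q' : ℝ) := by exact_mod_cast (hT t ht).1.q'_pos
    positivity
  have w1 := hW0 t₁ ht₁
  have w2 := hW0 t₂ ht₂
  have w3 := hW0 t₃ ht₃
  have w4 := hW0 t₄ ht₄
  have hWW : (t₁.p' : ℝ) * t₁.q' * (t₂.p' * t₂.q') * (t₃.p' * t₃.q') * (t₄.p' * t₄.q') ≤
      (256 * (s.p' * s.q')) ^ 4 := by
    have v1 := hW t₁ ht₁
    have v2 := hW t₂ ht₂
    have v3 := hW t₃ ht₃
    have v4 := hW t₄ ht₄
    have v0 : (0 : ℝ) < 256 * (s.p' * s.q') := by positivity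
    calc (t₁.p' : ℝ) * t₁.q' * (t₂.p' * t₂.q') * (t₃.p' * t₃.q') * (t₄.p' * t₄.q')
        ≤ (256 * (s.p' * s.q')) * (256 * (s.p' * s.q')) * (256 * (s.p' * s.q')) *
          (256 * (s.p' * s.q')) := by
          apply mul_le_mul _ v4 w4.le (by positivity)
          apply mul_le_mul _ v3 w3.le (by positivity)
          exact mul_le_mul v1 v2 w2.le (by positivity)
      _ = (256 * (s.p' * s.q')) ^ 4 := by ring
  obtain ⟨hsol1, hnear1⟩ := hT t₁ ht₁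
  have hfront := front (W := (t₁.p' : ℝ) * t₁.q' * (t₂.p' * t₂.q') * (t₃.p' * t₃.q') *
      (t₄.p' * t₄.q')) (P := s.p) (P' := s.p') (Q := s.q) (Q' := s.q') (u := u)
    hMR hNR hτ (p := t₁.p) (p' := t₁.p') (q := t₁.q) (q' := t₁.q')
    (by exact_mod_cast hsol1.p_pos) (by exact_mod_cast hsol1.p'_pos)
    (by exact_mod_cast hsol1.q_pos) (by exact_mod_cast hsol1.q'_pos) hP hP' hQ hQ'
    (by positivity) hWW (by exact_mod_cast hnear1.p_le) (by exact_mod_cast hnear1.p'_ge)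
    (by exact_mod_cast hnear1.q_le) (by exact_mod_cast hnear1.q'_ge) a5
    (by exact_mod_cast hsol1.eq) a6
  rw [← hYval] at hfront
  have hnum := num huR hc0 hg1 hy1 hlam hLval hΘ (by rw [hy3]; exact hprod)
  have habs : |((Matrix.det (Matrix.of ![t₁.vec, t₂.vec, t₃.vec, t₄.vec]) : ℤ) : ℝ)| < 1 := by
    rw [hcast, abs_mul]
    have hpos : 0 ≤ (t₁.p' : ℝ) * t₁.q' * (t₂.p' * t₂.q') * (t₃.p' * t₃.q') *
      (t₄.p' * t₄.q') * (N / M : ℝ) ^ 2 * τ⁻¹ ^ 5 * τ := by positivity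
    rw [abs_of_nonneg hpos]
    calc (t₁.p' : ℝ) * t₁.q' * (t₂.p' * t₂.q') * (t₃.p' * t₃.q') *
      (t₄.p' * t₄.q') * (N / M : ℝ) ^ 2 * τ⁻¹ ^ 5 * τ * |_|
        ≤ 2 ^ 70 * Y ^ 2 * (24 * ((5 * L ^ 2 + Θ) * L * (3 * L ^ 3 + Θ))) :=
          mul_le_mul hfront hdet (abs_nonneg _) (by positivity)
      _ = 24 * 2 ^ 70 * ((5 * L ^ 2 + Θ) * L * (3 * L ^ 3 + Θ)) * y ^ 6 := by
          rw [← hy3]
          ring
      _ < 1 := hnum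
  have : |Matrix.det (Matrix.of ![t₁.vec, t₂.vec, t₃.vec, t₄.vec])| < 1 := by
    exact_mod_cast habs
  exact Int.abs_lt_one_iff.mp this

end Pool.Agent.HP42.UF
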