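import Pool.Agent.W402.FX.W

/-!
The near-curve bound, with explicit constants: the proof of `Pool.Agent.W402.FX.stmtW_of`, with
the constants in the statement (helper42).
-/

set_option autoImplicit false

namespace Pool.Agent.HP42.UF

open Finset Pool.Agent.W16.FX Pool.Agent.W402.FX

/-- FX-W with explicit constants -/
theorem win (u : ℤ) (hu : 1 ≤ u) (ε : ℝ) (hε : 0 < ε) (D₀ lam : ℝ) (hD₀ : 0 < D₀)
    (hclass : ∀ M N : ℤ, 1 ≤ M → 1 ≤ N →
      ∀ s : Quad, Sol u M N s → ∀ T : Finset Quad, (∀ t ∈ T, Sol u M N t ∧ Near t s) → Dep T →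
      (T.card : ℝ) ≤ D₀ * (s.c N : ℝ) ^ ε * (1 + (s.q : ℝ) * s.q' / s.c N))
    (hlam0 : 0 < lam) (hlam1 : lam ≤ 1)
    (hdet : ∀ (η : ℝ) (M N : ℤ), 0 ≤ η → 1 ≤ M → 1 ≤ N →
      ∀ s : Quad, Sol u M N s → (s.prod : ℝ) ≤ (s.c N : ℝ) ^ (1 + η) → 2 ^ 17 * u ≤ s.c N →
      ∀ T : Finset Quad, (∀ t ∈ T, Sol u M N t ∧ Near t s) → ∀ τ : ℝ, 0 < τ →
      (∀ t ∈ T, τ ≤ (t.p : ℝ) / t.p' ∧ (t.p : ℝ) / t.p' ≤
        τ * (1 + lam * (s.c N : ℝ) ^ (-2 * η) * (s.prod : ℝ) ^ (-(1 / 3 : ℝ)))) → Dep T) :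
    ∀ (η : ℝ) (M N : ℤ), 0 ≤ η →
    1 ≤ M → 1 ≤ N → ∀ s : Quad, Sol u M N s → (s.prod : ℝ) ≤ (s.c N : ℝ) ^ (1 + η) →
    ∀ T : Finset Quad, (∀ t ∈ T, Sol u M N t ∧ Near t s) →
    (T.card : ℝ) ≤ (((16 * (2 ^ 17 * u.toNat) : ℕ) : ℝ) ^ 4 + 131074 * D₀ / lam) *
      (s.c N : ℝ) ^ (ε + 3 * η) * (s.prod : ℝ) ^ (1 / 3 : ℝ) := by
  classical
  set K : ℕ := 16 * (2 ^ 17 * u.toNat) with hK
  intro η M N hη hM hN s hs hprod T hT
  obtain ⟨hc1, hcp, hcp', hcq, hcq', hpr1⟩ := sol_le hu hM hN hs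
  have hc1' : (1 : ℝ) ≤ s.c N := by exact_mod_cast hc1
  have hpr1' : (1 : ℝ) ≤ s.prod := by exact_mod_cast hpr1
  have hc0 : (0 : ℝ) < s.c N := by linarith
  have hpr0 : (0 : ℝ) < s.prod := by linarith
  have hA : (1 : ℝ) ≤ (s.c N : ℝ) ^ (ε + 3 * η) := Real.one_le_rpow hc1' (by positivity)
  have hB : (1 : ℝ) ≤ (s.prod : ℝ) ^ (1 / 3 : ℝ) := Real.one_le_rpow hpr1' (by norm_num)
  have hAB : (1 : ℝ) ≤ (s.c N : ℝ) ^ (ε + 3 * η) * (s.prod : ℝ) ^ (1 / 3 : ℝ) :=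
    one_le_mul_of_one_le_of_one_le hA hB
  have hK0 : (0 : ℝ) ≤ (K : ℝ) ^ 4 := by positivity
  have hE0 : (0 : ℝ) ≤ 131074 * D₀ / lam := by positivity
  rcases lt_or_ge (s.c N) (2 ^ 17 * u) with hsmall | hbig
  · -- small c
    have hKu : ((K : ℕ) : ℤ) = 16 * (2 ^ 17 * u) := by
      rw [hK]
      push_cast
      rw [Int.toNat_of_nonneg (by linarith)]
    have h1 : (T.card : ℝ) ≤ (K : ℝ) ^ 4 := by
      apply card_box
      intro t ht
      obtain ⟨h2, h3⟩ := hT t ht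
      have a1 := h2.p_pos
      have a2 := h2.p'_pos
      have a3 := h2.q_pos
      have a4 := h2.q'_pos
      have b1 := h3.p_le
      have b2 := h3.p'_le
      have b3 := h3.q_le
      have b4 := h3.q'_le
      rw [hKu]
      refine ⟨⟨a1, ?_⟩, ⟨a2, ?_⟩, ⟨a3, ?_⟩, ⟨a4, ?_⟩⟩ <;> linarith
    calc (T.card : ℝ) ≤ (K : ℝ) ^ 4 + 131074 * D₀ / lam := by linarith
      _ ≤ ((K : ℝ) ^ 4 + 131074 * D₀ / lam) *
            ((s.c N : ℝ) ^ (ε + 3 * η) * (s.prod : ℝ) ^ (1 / 3 : ℝ)) :=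
          le_mul_of_one_le_right (by positivity) hAB
      _ = _ := by ring
  · -- large c
    set L : ℝ := lam * (s.c N : ℝ) ^ (-2 * η) * (s.prod : ℝ) ^ (-(1 / 3 : ℝ)) with hL
    have hL0 : 0 < L := by positivity
    have hL1 : L ≤ 1 := by
      have h1 : (s.c N : ℝ) ^ (-2 * η) ≤ 1 := Real.rpow_le_one_of_one_le_of_nonpos hc1' (by linarith)
      have h2 : (s.prod : ℝ) ^ (-(1 / 3 : ℝ)) ≤ 1 :=
        Real.rpow_le_one_of_one_le_of_nonpos hpr1' (by norm_num)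
      calc L ≤ 1 * 1 * 1 := by
            rw [hL]
            apply mul_le_mul (mul_le_mul hlam1 h1 (by positivity) (by norm_num)) h2 (by positivity)
              (by norm_num)
        _ = 1 := by norm_num
    have hsp : (0 : ℝ) < s.p := by exact_mod_cast hs.p_pos
    have hsp' : (0 : ℝ) < s.p' := by exact_mod_cast hs.p'_pos
    set ρ : ℝ := (s.p : ℝ) / s.p' with hρ
    have hρ0 : 0 < ρ := div_pos hsp hsp'
    have hratio : ∀ t ∈ T, ρ / 256 ≤ (t.p : ℝ) / t.p' ∧ (t.p : ℝ) / t.p' ≤ 256 * ρ := by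
      intro t ht
      obtain ⟨h2, h3⟩ := hT t ht
      have a1 : (0 : ℝ) < t.p := by exact_mod_cast h2.p_pos
      have a2 : (0 : ℝ) < t.p' := by exact_mod_cast h2.p'_pos
      have b1 : (t.p : ℝ) ≤ 16 * s.p := by exact_mod_cast h3.p_le
      have b2 : (t.p' : ℝ) ≤ 16 * s.p' := by exact_mod_cast h3.p'_le
      have b3 : (s.p : ℝ) ≤ 16 * t.p := by exact_mod_cast h3.p_ge
      have b4 : (s.p' : ℝ) ≤ 16 * t.p' := by exact_mod_cast h3.p'_ge
      constructor
      · rw [hρ, div_div, div_le_div_iff₀ (by positivity) a2]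
        calc (s.p : ℝ) * t.p' ≤ (16 * t.p) * (16 * s.p') :=
              mul_le_mul b3 b2 a2.le (by positivity)
          _ = t.p * (s.p' * 256) := by ring
      · rw [hρ, ← mul_div_assoc, div_le_div_iff₀ a2 hsp']
        calc (t.p : ℝ) * s.p' ≤ (16 * s.p) * (16 * t.p') :=
              mul_le_mul b1 b4 hsp'.le (by positivity)
          _ = 256 * s.p * t.p' := by ring
    set f : Quad → ℕ := fun t => ⌊(256 * ((t.p : ℝ) / t.p') / ρ - 1) / L⌋₊ with hf
    set J : ℕ := ⌊65536 / L⌋₊ + 1 with hJ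
    have hfJ : ∀ t ∈ T, f t ∈ range J := by
      intro t ht
      obtain ⟨h2, h3⟩ := hratio t ht
      rw [mem_range, hf, hJ, Nat.lt_succ_iff]
      apply Nat.floor_le_floor
      apply div_le_div_of_nonneg_right _ hL0.le
      have : 256 * ((t.p : ℝ) / t.p') / ρ ≤ 65536 := by
        rw [div_le_iff₀ hρ0]
        linarith
      linarith
    have hfib : ∀ j ∈ range J, (((T.filter (fun t => f t = j)).card : ℕ) : ℝ) ≤
        2 * D₀ * (s.c N : ℝ) ^ (ε + η) := by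
      intro j _
      have hsub : ∀ t ∈ T.filter (fun t => f t = j), Sol u M N t ∧ Near t s :=
        fun t ht => hT t (mem_filter.1 ht).1
      have hdep : Dep (T.filter (fun t => f t = j)) := by
        refine hdet η M N hη hM hN s hs hprod hbig _ hsub (ρ / 256 * (1 + j * L))
          (by positivity) ?_
        intro t ht
        obtain ⟨ht1, ht2⟩ := mem_filter.1 ht
        obtain ⟨h2, h3⟩ := hratio t ht1
        have hnn : 0 ≤ (256 * ((t.p : ℝ) / t.p') / ρ - 1) / L := by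
          apply div_nonneg _ hL0.le
          rw [sub_nonneg, le_div_iff₀ hρ0]
          linarith
        have h4 := Nat.floor_le hnn
        have h5 := Nat.lt_floor_add_one ((256 * ((t.p : ℝ) / t.p') / ρ - 1) / L)
        have e : ⌊(256 * ((t.p : ℝ) / t.p') / ρ - 1) / L⌋₊ = j := ht2
        rw [e] at h4 h5
        rw [le_div_iff₀ hL0] at h4
        rw [div_lt_iff₀ hL0] at h5
        have h6 : 1 + (j : ℝ) * L ≤ 256 * ((t.p : ℝ) / t.p') / ρ := by linarith
        have h7 : 256 * ((t.p : ℝ) / t.p') / ρ ≤ 1 + ((j : ℝ) + 1) * L := by linarith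
        rw [le_div_iff₀ hρ0] at h6
        rw [div_le_iff₀ hρ0] at h7
        constructor
        · linarith
        · rw [← hL]
          have h8 : 0 ≤ (j : ℝ) * L * L := by positivity
          have h9 : ρ / 256 * (1 + j * L) * (1 + L) =
              ((1 + ((j : ℝ) + 1) * L) * ρ + j * L * L * ρ) / 256 := by ring
          rw [h9, le_div_iff₀ (by norm_num : (0 : ℝ) < 256)]
          have h10 : 0 ≤ (j : ℝ) * L * L * ρ := by positivity
          linarith
      have h1 := hclass M N hM hN s hs _ hsub hdep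
      refine h1.trans ?_
      have hqq : (s.q : ℝ) * s.q' ≤ (s.c N : ℝ) ^ (1 + η) := by
        refine le_trans ?_ hprod
        exact_mod_cast qq_le_prod hs
      have hqc : (s.q : ℝ) * s.q' / s.c N ≤ (s.c N : ℝ) ^ η := by
        rw [div_le_iff₀ hc0]
        refine hqq.trans (le_of_eq ?_)
        rw [add_comm, Real.rpow_add hc0, Real.rpow_one]
      have hcη : (1 : ℝ) ≤ (s.c N : ℝ) ^ η := Real.one_le_rpow hc1' hη
      calc D₀ * (s.c N : ℝ) ^ ε * (1 + (s.q : ℝ) * s.q' / s.c N)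
          ≤ D₀ * (s.c N : ℝ) ^ ε * (2 * (s.c N : ℝ) ^ η) := by
            apply mul_le_mul_of_nonneg_left _ (by positivity)
            linarith
        _ = 2 * D₀ * (s.c N : ℝ) ^ (ε + η) := by
            rw [Real.rpow_add hc0]
            ring
    have hcard : (T.card : ℝ) ≤ J * (2 * D₀ * (s.c N : ℝ) ^ (ε + η)) := by
      have h1 : (T.card : ℝ) = ∑ j ∈ range J, (((T.filter (fun t => f t = j)).card : ℕ) : ℝ) := by
        rw [card_eq_sum_card_fiberwise hfJ]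
        push_cast
        rfl
      rw [h1]
      calc ∑ j ∈ range J, (((T.filter (fun t => f t = j)).card : ℕ) : ℝ)
          ≤ ∑ j ∈ range J, 2 * D₀ * (s.c N : ℝ) ^ (ε + η) := sum_le_sum hfib
        _ = J * (2 * D₀ * (s.c N : ℝ) ^ (ε + η)) := by
            rw [sum_const, card_range, nsmul_eq_mul]
    have hJle : (J : ℝ) ≤ 65537 / L := by
      rw [hJ]
      push_cast
      have h1 : ((⌊65536 / L⌋₊ : ℕ) : ℝ) ≤ 65536 / L := Nat.floor_le (by positivity)
      have h2 : 1 ≤ 1 / L := by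
        rw [le_div_iff₀ hL0]
        linarith
      calc ((⌊65536 / L⌋₊ : ℕ) : ℝ) + 1 ≤ 65536 / L + 1 / L := by linarith
        _ = 65537 / L := by ring
    have hLinv : 1 / L = (s.c N : ℝ) ^ (2 * η) * (s.prod : ℝ) ^ (1 / 3 : ℝ) / lam := by
      rw [hL]
      rw [Real.rpow_neg hpr0.le, neg_mul, Real.rpow_neg hc0.le]
      field_simp
    calc (T.card : ℝ) ≤ J * (2 * D₀ * (s.c N : ℝ) ^ (ε + η)) := hcard
      _ ≤ (65537 / L) * (2 * D₀ * (s.c N : ℝ) ^ (ε + η)) :=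
          mul_le_mul_of_nonneg_right hJle (by positivity)
      _ = 131074 * D₀ * (s.c N : ℝ) ^ (ε + η) * (1 / L) := by ring
      _ = 131074 * D₀ / lam * ((s.c N : ℝ) ^ (ε + η) * (s.c N : ℝ) ^ (2 * η)) *
            (s.prod : ℝ) ^ (1 / 3 : ℝ) := by
          rw [hLinv]
          ring
      _ = 131074 * D₀ / lam * (s.c N : ℝ) ^ (ε + 3 * η) * (s.prod : ℝ) ^ (1 / 3 : ℝ) := by
          rw [← Real.rpow_add hc0]
          congr 3
          ring
      _ ≤ ((K : ℝ) ^ 4 + 131074 * D₀ / lam) * (s.c N : ℝ) ^ (ε + 3 * η) *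
            (s.prod : ℝ) ^ (1 / 3 : ℝ) := by
          apply mul_le_mul_of_nonneg_right _ (by positivity)
          apply mul_le_mul_of_nonneg_right _ (by positivity)
          linarith

end Pool.Agent.HP42.UF
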