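import Pool.Agent.W376.FX.Zero

/-!
The degenerate classes, with an explicit bound: the proof of `Pool.Agent.W376.FX.stmtZero`, with
the constant in the statement (helper42).
-/

set_option autoImplicit false

namespace Pool.Agent.HP42.UF

open Finset Pool.Agent.W16.FX Pool.Agent.W376.FX

/-- FX-ZERO with an explicit constant -/
theorem zero (u : ℤ) (hu : 1 ≤ u) : ∀ M N : ℤ, 1 ≤ M → 1 ≤ N → ∀ s : Quad, Sol u M N s →
    ∀ T : Finset Quad, (∀ t ∈ T, Sol u M N t ∧ Near t s) →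
    ∀ Φ : Fin 4 → ℤ, Φ ≠ 0 → Φ 0 * Φ 3 = Φ 1 * Φ 2 → (∀ t ∈ T, ∑ i, Φ i * t.vec i = 0) →
    (T.card : ℝ) ≤ (((16 * (8 * (16 ^ 8 * u) ^ 3).toNat + 1 : ℕ) : ℝ) ^ 4 + 65538) *
      (1 + (s.q : ℝ) * s.q' / s.c N) := by
  set K : ℕ := (8 * (16 ^ 8 * u) ^ 3).toNat with hK
  have hK' : (K : ℤ) = 8 * (16 ^ 8 * u) ^ 3 := by
    rw [hK, Int.toNat_of_nonneg (by positivity)]
  intro M N hM hN s hs T hT Φ h0 hz hΦ
  have hsq : (0 : ℝ) < s.q := by exact_mod_cast hs.q_pos
  have hsq' : (0 : ℝ) < s.q' := by exact_mod_cast hs.q'_pos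
  have hsp' : (0 : ℝ) < s.p' := by exact_mod_cast hs.p'_pos
  have hNR : (1 : ℝ) ≤ N := by exact_mod_cast hN
  have hcR : (s.c N : ℝ) = N * s.q' * (s.p' : ℝ) ^ 3 := by unfold Quad.c; push_cast; ring
  have hc0 : (0 : ℝ) < s.c N := by rw [hcR]; positivity
  have hr : (0 : ℝ) ≤ (s.q : ℝ) * s.q' / s.c N := by positivity
  by_cases hsmall : s.c N ≤ 8 * (16 ^ 8 * u) ^ 3
  · obtain ⟨l1, l2, l3, l4, l5, l6⟩ := sol_le hu hM hN hs
    have h1 := small_case K T hT (by linarith) (by linarith) (by linarith) (by linarith)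
    have h2 : (T.card : ℝ) ≤ ((16 * K + 1 : ℕ) : ℝ) ^ 4 := by exact_mod_cast h1
    have h3 : (0 : ℝ) ≤ ((16 * K + 1 : ℕ) : ℝ) ^ 4 := by positivity
    nlinarith
  · obtain ⟨x, y, z, w, hxy, hzw, hf⟩ := factor Φ h0 hz
    set T1 := T.filter (fun t => x * t.p + y * t.p' = 0) with hT1
    set T2 := T.filter (fun t => ¬ (x * t.p + y * t.p' = 0)) with hT2
    have hcard : T.card = T1.card + T2.card := (Finset.card_filter_add_card_filter_not _).symm
    have hk1 := first_kind hN hs T1 (fun t ht => hT t (Finset.mem_filter.mp ht).1) (by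
      intro t ht t' ht'
      have a1 := (Finset.mem_filter.mp ht)
      have a2 := (Finset.mem_filter.mp ht')
      have S1 := (hT t a1.1).1
      have S2 := (hT t' a2.1).1
      exact eq_of_ratio S1.p_pos S2.p_pos (sol_cop S1) (sol_cop S2) (lin_ratio hxy a1.2 a2.2))
    have hk2 : T2.card ≤ 1 := by
      rw [Finset.card_le_one]
      intro t ht t' ht'
      by_contra hne
      have a1 := (Finset.mem_filter.mp ht)
      have a2 := (Finset.mem_filter.mp ht')
      have S1 := (hT t a1.1).1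
      have S2 := (hT t' a2.1).1
      have b1 := (hf t S1.p_pos S1.p'_pos S1.q_pos S1.q'_pos (hΦ t a1.1)).resolve_left a1.2
      have b2 := (hf t' S2.p_pos S2.p'_pos S2.q_pos S2.q'_pos (hΦ t' a2.1)).resolve_left a2.2
      obtain ⟨c1, c2⟩ := eq_of_ratio S1.q_pos S2.q_pos (sol_cop_q S1) (sol_cop_q S2)
        (lin_ratio hzw b1 b2)
      exact hsmall (second_kind hu hM hN hs (hT t a1.1) (hT t' a2.1) c1 c2 hne)
    have h1 : (T.card : ℝ) = T1.card + T2.card := by exact_mod_cast hcard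
    have h2 : (T2.card : ℝ) ≤ 1 := by exact_mod_cast hk2
    have h3 : (0 : ℝ) ≤ ((16 * K + 1 : ℕ) : ℝ) ^ 4 := by positivity
    nlinarith

end Pool.Agent.HP42.UF
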