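import Pool.Agent.HP42.UF.Run
import Pool.Agent.HP42.UF.Zero
import Pool.Agent.HP42.UF.Cls
import Pool.Agent.HP42.UF.Det
import Pool.Agent.HP42.UF.Win
import Pool.Agent.W376.FX.Phi

/-!
The near-curve bound with polynomial dependence on the difference `u` (helper42).
-/

set_option autoImplicit false

namespace Pool.Agent.HP42.UF

open Finset Pool.Agent.W16.FX

theorem toNat_real {u : ℤ} (hu : 1 ≤ u) : ((u.toNat : ℕ) : ℝ) = (u : ℝ) := by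
  have : ((u.toNat : ℤ) : ℝ) = (u : ℝ) := by rw [Int.toNat_of_nonneg (by omega)]
  rw [← this]
  push_cast
  ring

theorem run_real : ∃ B : ℝ, 0 < B ∧ ∀ u : ℤ, 1 ≤ u → ∃ CR : ℕ, (CR : ℝ) ≤ B * (u : ℝ) ^ 2 ∧
    ∀ M N α β γ δ g : ℤ, 1 ≤ M → 1 ≤ N → g ≠ 0 → α * δ - β * γ ≠ 0 →
      ∀ T : Finset Quad, (∀ t ∈ T, 0 < t.p ∧ 0 < t.p' ∧ IsCoprime t.p t.p' ∧
        M * t.q * t.p ^ 3 + u = N * t.q' * t.p' ^ 3 ∧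
        α * t.p + γ * t.p' = g * t.q' ∧ β * t.p + δ * t.p' = -(g * t.q)) →
      (∀ t ∈ T, ∀ s ∈ T, t.p' ≤ 256 * s.p') → T.card ≤ CR := by
  obtain ⟨W, hW⟩ : ∃ W : ℕ, W = 16 * 256 ^ 4 := ⟨_, rfl⟩
  refine ⟨(1024 * (4 * W + 1) + 1) ^ 2 * 16, by positivity, fun u hu => ?_⟩
  have h := run u hu
  rw [← hW] at h
  refine ⟨_, ?_, h⟩
  have hur : (1 : ℝ) ≤ u := by exact_mod_cast hu
  have hW0 : (0 : ℝ) ≤ W := Nat.cast_nonneg W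
  push_cast
  rw [toNat_real hu]
  have e : 1024 * (4 * ((W : ℝ) * (u : ℝ)) + 1) + 1 ≤ (1024 * (4 * W + 1) + 1) * u := by
    nlinarith
  calc (1024 * (4 * ((W : ℝ) * (u : ℝ)) + 1) + 1) ^ 2 * 16 ≤
        ((1024 * (4 * W + 1) + 1) * u) ^ 2 * 16 :=
        mul_le_mul_of_nonneg_right (pow_le_pow_left₀ (by positivity) e 2) (by norm_num)
    _ = (1024 * (4 * (W : ℝ) + 1) + 1) ^ 2 * 16 * (u : ℝ) ^ 2 := by ring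

theorem zero_real : ∃ B : ℝ, 0 < B ∧ ∀ u : ℤ, 1 ≤ u → ∃ CZ : ℝ, 0 < CZ ∧ CZ ≤ B * (u : ℝ) ^ 12 ∧
    ∀ M N : ℤ, 1 ≤ M → 1 ≤ N → ∀ s : Quad, Sol u M N s →
      ∀ T : Finset Quad, (∀ t ∈ T, Sol u M N t ∧ Near t s) →
      ∀ Φ : Fin 4 → ℤ, Φ ≠ 0 → Φ 0 * Φ 3 = Φ 1 * Φ 2 → (∀ t ∈ T, ∑ i, Φ i * t.vec i = 0) →
      (T.card : ℝ) ≤ CZ * (1 + (s.q : ℝ) * s.q' / s.c N) := by
  obtain ⟨W, hW⟩ : ∃ W : ℤ, W = 16 ^ 8 := ⟨_, rfl⟩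
  have hW1 : 1 ≤ W := by rw [hW]; norm_num
  have hWr : (1 : ℝ) ≤ W := by exact_mod_cast hW1
  refine ⟨(128 * W ^ 3 + 1) ^ 4 + 65538, by positivity, fun u hu => ?_⟩
  have h := zero u hu
  rw [← hW] at h
  have hur : (1 : ℝ) ≤ u := by exact_mod_cast hu
  refine ⟨_, by positivity, ?_, h⟩
  have hWu : 1 ≤ W * u := by nlinarith
  have h1 : 1 ≤ 8 * (W * u) ^ 3 := by
    have : 1 ≤ (W * u) ^ 3 := one_le_pow₀ hWu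
    linarith
  have h2 := toNat_real h1
  push_cast at h2 ⊢
  rw [h2]
  have h3 : (1 : ℝ) ≤ (u : ℝ) ^ 3 := one_le_pow₀ hur
  have h4 : (1 : ℝ) ≤ (u : ℝ) ^ 12 := one_le_pow₀ hur
  have h5 : 16 * (8 * ((W : ℝ) * u) ^ 3) + 1 ≤ (128 * W ^ 3 + 1) * u ^ 3 := by
    have e : 16 * (8 * ((W : ℝ) * u) ^ 3) = 128 * W ^ 3 * u ^ 3 := by ring
    rw [e]
    linarith
  have h6 : (16 * (8 * ((W : ℝ) * u) ^ 3) + 1) ^ 4 ≤ (128 * W ^ 3 + 1) ^ 4 * u ^ 12 := by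
    have h0 : 0 ≤ 16 * (8 * ((W : ℝ) * u) ^ 3) + 1 := by positivity
    calc _ ≤ ((128 * (W : ℝ) ^ 3 + 1) * u ^ 3) ^ 4 := pow_le_pow_left₀ h0 h5 4
      _ = _ := by ring
  have h7 : ((128 * (W : ℝ) ^ 3 + 1) ^ 4 + 65538) * (u : ℝ) ^ 12 =
      (128 * (W : ℝ) ^ 3 + 1) ^ 4 * (u : ℝ) ^ 12 + 65538 * (u : ℝ) ^ 12 := by ring
  rw [h7]
  linarith

theorem det_real : ∃ B : ℝ, 1 ≤ B ∧ ∀ u : ℤ, 1 ≤ u → ∀ (η : ℝ) (M N : ℤ), 0 ≤ η → 1 ≤ M →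
    1 ≤ N → ∀ s : Quad, Sol u M N s → (s.prod : ℝ) ≤ (s.c N : ℝ) ^ (1 + η) →
    2 ^ 17 * u ≤ s.c N → ∀ T : Finset Quad, (∀ t ∈ T, Sol u M N t ∧ Near t s) → ∀ τ : ℝ, 0 < τ →
    (∀ t ∈ T, τ ≤ (t.p : ℝ) / t.p' ∧ (t.p : ℝ) / t.p' ≤
      τ * (1 + 1 / (B * (u : ℝ) ^ 2) * (s.c N : ℝ) ^ (-2 * η) *
        (s.prod : ℝ) ^ (-(1 / 3 : ℝ)))) → Dep T :=
  ⟨2 ^ 110, one_le_pow₀ (by norm_num), fun u hu => det u hu⟩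

/-- **FX-W, uniform in `u`** -/
theorem unif (ε : ℝ) (hε : 0 < ε) : ∃ D : ℝ, 0 < D ∧ ∀ u : ℤ, 1 ≤ u → ∀ (η : ℝ) (M N : ℤ),
    0 ≤ η → 1 ≤ M → 1 ≤ N → ∀ s : Quad, Sol u M N s → (s.prod : ℝ) ≤ (s.c N : ℝ) ^ (1 + η) →
    ∀ T : Finset Quad, (∀ t ∈ T, Sol u M N t ∧ Near t s) →
    (T.card : ℝ) ≤ D * (u : ℝ) ^ 14 * (s.c N : ℝ) ^ (ε + 3 * η) * (s.prod : ℝ) ^ (1 / 3 : ℝ) := by
  obtain ⟨C1, hC1, hdiv⟩ := Pool.Agent.H510R2.divisor_bound (ε / 12) (by positivity)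
  obtain ⟨E, hE⟩ : ∃ E : ℝ, E = C1 * ((2 : ℝ) ^ 61) ^ (ε / 12) := ⟨_, rfl⟩
  have hE0 : 0 < E := by rw [hE]; positivity
  obtain ⟨B1, hB1, hrun⟩ := run_real
  obtain ⟨B2, hB2, hzero⟩ := zero_real
  obtain ⟨B3, hB3, hdet⟩ := det_real
  obtain ⟨W, hW⟩ : ∃ W : ℕ, W = 2 ^ 17 := ⟨_, rfl⟩
  obtain ⟨V, hV⟩ : ∃ V : ℝ, V = 131074 := ⟨_, rfl⟩
  have hV0 : 0 < V := by rw [hV]; norm_num
  refine ⟨(16 * W) ^ 4 + V * B3 * (B2 + 2 * B1 * E + 1) + 1, by positivity, fun u hu => ?_⟩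
  have hur : (1 : ℝ) ≤ u := by exact_mod_cast hu
  have hu0 : (0 : ℝ) < u := by linarith
  have hpow : ∀ i j : ℕ, i ≤ j → (u : ℝ) ^ i ≤ (u : ℝ) ^ j := fun i j h =>
    pow_le_pow_right₀ hur h
  have hu1 : ∀ i : ℕ, (1 : ℝ) ≤ (u : ℝ) ^ i := fun i => one_le_pow₀ hur
  have hlam1 : 1 / (B3 * (u : ℝ) ^ 2) ≤ 1 := by
    rw [div_le_one (by positivity)]
    nlinarith [hu1 2]
  obtain ⟨CR, hCR, hR⟩ := hrun u hu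
  obtain ⟨CZ, hCZ0, hCZ, hZ⟩ := hzero u hu
  have hcl := cls u hu ε hε CR CZ C1 hR Pool.Agent.W376.FX.stmtPhi hCZ0 hZ hC1 hdiv
  have hw := win u hu ε hε _ _ (by positivity) hcl (by positivity) hlam1 (hdet u hu)
  rw [← hW, ← hV] at hw
  intro η M N hη hM hN s hs hprod T hT
  refine (hw η M N hη hM hN s hs hprod T hT).trans ?_
  have hpr : (0 : ℝ) ≤ (s.c N : ℝ) ^ (ε + 3 * η) := by
    have h1 := (Pool.Agent.W402.FX.sol_le hu hM hN hs).1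
    have : (0 : ℝ) ≤ (s.c N : ℝ) := by
      have : (1 : ℝ) ≤ (s.c N : ℝ) := by exact_mod_cast h1
      linarith
    positivity
  have hpr2 : (0 : ℝ) ≤ (s.prod : ℝ) ^ (1 / 3 : ℝ) := by
    have h1 := (Pool.Agent.W402.FX.sol_le hu hM hN hs).2.2.2.2.2
    have : (0 : ℝ) ≤ (s.prod : ℝ) := by
      have : (1 : ℝ) ≤ (s.prod : ℝ) := by exact_mod_cast h1
      linarith
    positivity
  refine mul_le_mul_of_nonneg_right (mul_le_mul_of_nonneg_right ?_ hpr) hpr2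
  -- the constants
  have h1 : (((16 * (W * u.toNat) : ℕ) : ℝ)) ^ 4 ≤ (16 * W) ^ 4 * (u : ℝ) ^ 14 := by
    push_cast
    rw [toNat_real hu]
    calc (16 * ((W : ℝ) * (u : ℝ))) ^ 4 = (16 * W) ^ 4 * (u : ℝ) ^ 4 := by ring
      _ ≤ (16 * W) ^ 4 * (u : ℝ) ^ 14 :=
          mul_le_mul_of_nonneg_left (hpow 4 14 (by norm_num)) (by positivity)
  have h5 : CZ + 2 * CR * C1 * ((2 : ℝ) ^ 61) ^ (ε / 12) + 1 ≤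
      (B2 + 2 * B1 * E + 1) * (u : ℝ) ^ 12 := by
    have e1 : 2 * (CR : ℝ) * C1 * ((2 : ℝ) ^ 61) ^ (ε / 12) = 2 * E * CR := by rw [hE]; ring
    have e3 : (CR : ℝ) ≤ B1 * (u : ℝ) ^ 12 :=
      hCR.trans (mul_le_mul_of_nonneg_left (hpow 2 12 (by norm_num)) hB1.le)
    have e2 : 2 * E * CR ≤ 2 * E * (B1 * (u : ℝ) ^ 12) :=
      mul_le_mul_of_nonneg_left e3 (by positivity)
    rw [e1]
    have := hu1 12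
    calc CZ + 2 * E * CR + 1 ≤ B2 * (u : ℝ) ^ 12 + 2 * E * (B1 * (u : ℝ) ^ 12) + (u : ℝ) ^ 12 := by
          linarith
      _ = _ := by ring
  have h6 : V * (CZ + 2 * CR * C1 * ((2 : ℝ) ^ 61) ^ (ε / 12) + 1) /
      (1 / (B3 * (u : ℝ) ^ 2)) ≤ V * B3 * (B2 + 2 * B1 * E + 1) * (u : ℝ) ^ 14 := by
    rw [div_div_eq_mul_div, div_one]
    calc V * (CZ + 2 * CR * C1 * ((2 : ℝ) ^ 61) ^ (ε / 12) + 1) * (B3 * (u : ℝ) ^ 2)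
        ≤ V * ((B2 + 2 * B1 * E + 1) * (u : ℝ) ^ 12) * (B3 * (u : ℝ) ^ 2) := by gcongr
      _ = _ := by ring
  have h7 := hu1 14
  calc _ ≤ (16 * (W : ℝ)) ^ 4 * (u : ℝ) ^ 14 + V * B3 * (B2 + 2 * B1 * E + 1) * (u : ℝ) ^ 14 +
          (u : ℝ) ^ 14 := by linarith
    _ = _ := by ring

end Pool.Agent.HP42.UF
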