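import Pool.Agent.HP42.UF.All

/-!
Counting the solutions of `M q p ^ 3 + u = N q' p' ^ 3` with `M`, `N` running through squares
(helper42).
-/

set_option autoImplicit false

namespace Pool.Agent.HP42.UF

open Finset Pool.Agent.W16.FX

/-- a quadruple of natural numbers as a `Quad` -/
def qd (x : ℕ × ℕ × ℕ × ℕ) : Quad := ⟨x.1, x.2.1, x.2.2.1, x.2.2.2⟩

/-- the dyadic box of a quadruple -/
def bx (x : ℕ × ℕ × ℕ × ℕ) : ℕ × ℕ × ℕ × ℕ :=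
  (Nat.log 2 x.1, Nat.log 2 x.2.1, Nat.log 2 x.2.2.1, Nat.log 2 x.2.2.2)

theorem qd_inj : Function.Injective qd := by
  rintro ⟨a, b, c, d⟩ ⟨a', b', c', d'⟩ h
  simp only [qd, Quad.mk.injEq, Nat.cast_inj] at h
  simp only [Prod.mk.injEq]
  exact h

theorem log_near {x y : ℕ} (hy : 0 < y) (h : Nat.log 2 x = Nat.log 2 y) : (x : ℤ) ≤ 16 * y := by
  have h1 : x < 2 ^ (Nat.log 2 x + 1) := Nat.lt_pow_succ_log_self (by norm_num) x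
  have h2 : 2 ^ Nat.log 2 y ≤ y := Nat.pow_log_le_self 2 hy.ne'
  rw [h, pow_succ] at h1
  have : x ≤ 16 * y := by omega
  exact_mod_cast this

theorem near_of {x y : ℕ × ℕ × ℕ × ℕ} (h : bx x = bx y)
    (hx : 0 < x.1 ∧ 0 < x.2.1 ∧ 0 < x.2.2.1 ∧ 0 < x.2.2.2)
    (hy : 0 < y.1 ∧ 0 < y.2.1 ∧ 0 < y.2.2.1 ∧ 0 < y.2.2.2) : Near (qd x) (qd y) := by
  simp only [bx, Prod.mk.injEq] at h
  obtain ⟨h1, h2, h3, h4⟩ := h
  obtain ⟨a1, a2, a3, a4⟩ := hx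
  obtain ⟨b1, b2, b3, b4⟩ := hy
  exact ⟨log_near b1 h1, log_near a1 h1.symm, log_near b2 h2, log_near a2 h2.symm,
    log_near b3 h3, log_near a3 h3.symm, log_near b4 h4, log_near a4 h4.symm⟩

theorem pos_of_sol {u M N : ℤ} {x : ℕ × ℕ × ℕ × ℕ} (h : Sol u M N (qd x)) :
    0 < x.1 ∧ 0 < x.2.1 ∧ 0 < x.2.2.1 ∧ 0 < x.2.2.2 := by
  have h1 := h.p_pos
  have h2 := h.p'_pos
  have h3 := h.q_pos
  have h4 := h.q'_pos
  simp only [qd] at h1 h2 h3 h4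
  exact ⟨by exact_mod_cast h1, by exact_mod_cast h2, by exact_mod_cast h3, by exact_mod_cast h4⟩

/-- one box -/
theorem one_box (ε : ℝ) (hε : 0 < ε) : ∃ D : ℝ, 0 < D ∧ ∀ u h h' : ℕ, 1 ≤ u → 1 ≤ h → 1 ≤ h' →
    ∀ η X P : ℝ, 0 ≤ η → 1 ≤ X → 0 ≤ P → ∀ S : Finset (ℕ × ℕ × ℕ × ℕ),
    (∀ x ∈ S, Sol u ((h ^ 2 : ℕ) : ℤ) ((h' ^ 2 : ℕ) : ℤ) (qd x) ∧
      ((qd x).prod : ℝ) ≤ ((qd x).c ((h' ^ 2 : ℕ) : ℤ) : ℝ) ^ (1 + η) ∧
      ((qd x).c ((h' ^ 2 : ℕ) : ℤ) : ℝ) ≤ X ∧ ((qd x).prod : ℝ) ≤ P) →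
    (∀ x ∈ S, ∀ y ∈ S, bx x = bx y) →
    (S.card : ℝ) ≤ D * (u : ℝ) ^ 14 * X ^ (ε + 3 * η) * P ^ (1 / 3 : ℝ) := by
  obtain ⟨D, hD, h⟩ := unif ε hε
  refine ⟨D, hD, fun u h1 h2 hu hh1 hh2 η X P hη hX hP S hS hbx => ?_⟩
  rcases S.eq_empty_or_nonempty with h0 | ⟨y, hy⟩
  · rw [h0]
    simp only [card_empty, Nat.cast_zero]
    positivity
  obtain ⟨s1, s2, s3, s4⟩ := hS y hy
  have hu' : (1 : ℤ) ≤ (u : ℤ) := by exact_mod_cast hu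
  have hM : (1 : ℤ) ≤ ((h1 ^ 2 : ℕ) : ℤ) := by
    have : 1 ≤ h1 ^ 2 := Nat.one_le_pow _ _ hh1
    exact_mod_cast this
  have hN : (1 : ℤ) ≤ ((h2 ^ 2 : ℕ) : ℤ) := by
    have : 1 ≤ h2 ^ 2 := Nat.one_le_pow _ _ hh2
    exact_mod_cast this
  have h3 := h u hu' η _ _ hη hM hN (qd y) s1 s2 (S.image qd) (by
    intro t ht
    obtain ⟨x, hx, rfl⟩ := mem_image.1 ht
    exact ⟨(hS x hx).1, near_of (hbx x hx y hy) (pos_of_sol (hS x hx).1) (pos_of_sol s1)⟩)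
  rw [card_image_of_injective _ qd_inj] at h3
  obtain ⟨c1, -, -, -, -, c2⟩ := Pool.Agent.W402.FX.sol_le hu' hM hN s1
  have c1' : (1 : ℝ) ≤ ((qd y).c ((h2 ^ 2 : ℕ) : ℤ) : ℝ) := by exact_mod_cast c1
  have c2' : (1 : ℝ) ≤ ((qd y).prod : ℝ) := by exact_mod_cast c2
  have h4 : (((u : ℤ) : ℝ)) = (u : ℝ) := by norm_cast
  rw [h4] at h3
  refine h3.trans ?_
  have h5 : ((qd y).c ((h2 ^ 2 : ℕ) : ℤ) : ℝ) ^ (ε + 3 * η) ≤ X ^ (ε + 3 * η) :=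
    Real.rpow_le_rpow (by linarith) s3 (by positivity)
  have h6 : ((qd y).prod : ℝ) ^ (1 / 3 : ℝ) ≤ P ^ (1 / 3 : ℝ) :=
    Real.rpow_le_rpow (by linarith) s4 (by norm_num)
  refine mul_le_mul (mul_le_mul_of_nonneg_left h5 (by positivity)) h6 (by positivity)
    (by positivity)

theorem sum_inv_le (N : ℕ) : ∑ h ∈ Icc 1 N, (1 : ℝ) / h ≤ 1 + Real.log N := by
  have h1 := harmonic_le_one_add_log N
  rw [harmonic_eq_sum_Icc] at h1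
  push_cast at h1
  refine le_trans (le_of_eq ?_) h1
  refine sum_congr rfl fun i _ => ?_
  rw [one_div]

/-- **all boxes**: the number of the `n ∈ B`, when the difference `a n`, the two square factors and
the quadruple determine `n` -/
theorem all_boxes (ε : ℝ) (hε : 0 < ε) : ∃ D : ℝ, 0 < D ∧ ∀ N : ℕ, 1 ≤ N → ∀ η X A W V : ℝ,
    0 ≤ η → 1 ≤ X → 1 ≤ A → 0 ≤ W → 1 ≤ V → ∀ B : Finset ℕ, ∀ (a h h' : ℕ → ℕ)
      (f : ℕ → ℕ × ℕ × ℕ × ℕ),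
    (∀ n ∈ B, 1 ≤ a n ∧ (a n : ℝ) ≤ A ∧ 1 ≤ h n ∧ h n ≤ N ∧ 1 ≤ h' n ∧ h' n ≤ N ∧
      ((h n : ℝ) * h' n) ≤ V ∧
      Sol (a n) ((h n ^ 2 : ℕ) : ℤ) ((h' n ^ 2 : ℕ) : ℤ) (qd (f n)) ∧
      ((qd (f n)).prod : ℝ) ≤ ((qd (f n)).c ((h' n ^ 2 : ℕ) : ℤ) : ℝ) ^ (1 + η) ∧
      ((qd (f n)).c ((h' n ^ 2 : ℕ) : ℤ) : ℝ) ≤ X ∧
      ((qd (f n)).prod : ℝ) ≤ W ^ 3 / ((h n : ℝ) * h' n) ^ 2) →
    (∀ n ∈ B, ∀ n' ∈ B, a n = a n' → h n = h n' → h' n = h' n' → f n = f n' → n = n') →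
    (B.card : ℝ) ≤ D * A ^ 15 * X ^ (ε + 3 * η) * W * V ^ (1 / 3 : ℝ) *
      (1 + Real.log N) ^ 2 * (2 + 2 * Real.log X) ^ 4 := by
  classical
  obtain ⟨D, hD, hone⟩ := one_box ε hε
  refine ⟨D, hD, fun N hN η X A W V hη hX hA hW hV B a h h' f hB hinj => ?_⟩
  have hX0 : 0 < X := by linarith
  have hlX : 0 ≤ Real.log X := Real.log_nonneg hX
  obtain ⟨J, hJ⟩ : ∃ J : ℕ, J = Nat.log 2 ⌊X⌋₊ + 1 := ⟨_, rfl⟩
  have hJle : (J : ℝ) ≤ 2 + 2 * Real.log X := by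
    have h1 : 1 ≤ ⌊X⌋₊ := (Nat.one_le_floor_iff X).2 hX
    have h2 : (2 : ℝ) ^ Nat.log 2 ⌊X⌋₊ ≤ X := by
      have h3 : 2 ^ Nat.log 2 ⌊X⌋₊ ≤ ⌊X⌋₊ := Nat.pow_log_le_self 2 (by omega)
      have h4 : ((2 ^ Nat.log 2 ⌊X⌋₊ : ℕ) : ℝ) ≤ ((⌊X⌋₊ : ℕ) : ℝ) := by exact_mod_cast h3
      push_cast at h4
      exact h4.trans (Nat.floor_le hX0.le)
    have h5 := Real.log_le_log (by positivity) h2
    rw [Real.log_pow] at h5
    have h6 : (0.6931471803 : ℝ) < Real.log 2 := Real.log_two_gt_d9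
    rw [hJ]
    push_cast
    have h7 : (0 : ℝ) ≤ Nat.log 2 ⌊X⌋₊ := Nat.cast_nonneg _
    nlinarith
  obtain ⟨K, hK⟩ : ∃ K : Finset ((ℕ × ℕ × ℕ) × (ℕ × ℕ × ℕ × ℕ)), K =
    (Icc 1 ⌊A⌋₊ ×ˢ Icc 1 N ×ˢ Icc 1 N) ×ˢ (range J ×ˢ range J ×ˢ range J ×ˢ range J) := ⟨_, rfl⟩
  have hlog : ∀ n ∈ B, ∀ y : ℕ, (y : ℤ) ≤ (qd (f n)).c ((h' n ^ 2 : ℕ) : ℤ) → Nat.log 2 y < J := by
    intro n hn y hy
    obtain ⟨-, -, -, -, -, -, -, -, -, b10, -⟩ := hB n hn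
    have h1 : (y : ℝ) ≤ X := by
      refine le_trans ?_ b10
      exact_mod_cast hy
    have h2 : y ≤ ⌊X⌋₊ := Nat.le_floor h1
    have h3 := Nat.log_mono_right (b := 2) h2
    omega
  have hmaps : ∀ n ∈ B, ((a n, h n, h' n), bx (f n)) ∈ K := by
    intro n hn
    obtain ⟨b1, b2, b3, b4, b5, b6, b7, b8, b9, b10, b11⟩ := hB n hn
    have hu' : (1 : ℤ) ≤ (a n : ℤ) := by exact_mod_cast b1
    have hM : (1 : ℤ) ≤ ((h n ^ 2 : ℕ) : ℤ) := by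
      have : 1 ≤ h n ^ 2 := Nat.one_le_pow _ _ b3
      exact_mod_cast this
    have hN : (1 : ℤ) ≤ ((h' n ^ 2 : ℕ) : ℤ) := by
      have : 1 ≤ h' n ^ 2 := Nat.one_le_pow _ _ b5
      exact_mod_cast this
    obtain ⟨-, c2, c3, c4, c5, -⟩ := Pool.Agent.W402.FX.sol_le hu' hM hN b8
    rw [hK, mem_product, mem_product, mem_product, mem_product, mem_product, mem_product]
    simp only [mem_Icc, mem_range, bx]
    refine ⟨⟨⟨b1, Nat.le_floor b2⟩, ⟨b3, b4⟩, b5, b6⟩, hlog n hn _ c2, hlog n hn _ c3,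
      hlog n hn _ c4, hlog n hn _ c5⟩
  have h1 : (B.card : ℝ) = ∑ k ∈ K, (((B.filter fun n => ((a n, h n, h' n), bx (f n)) = k).card : ℕ) :
      ℝ) := by
    rw [card_eq_sum_card_fiberwise hmaps]
    push_cast
    rfl
  have hfib : ∀ k ∈ K, (((B.filter fun n => ((a n, h n, h' n), bx (f n)) = k).card : ℕ) : ℝ) ≤
      (D * A ^ 14 * X ^ (ε + 3 * η) * W * V ^ (1 / 3 : ℝ)) * (1 / (k.1.2.1 : ℝ)) *
        (1 / (k.1.2.2 : ℝ)) := by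
    rintro ⟨⟨a0, h0, h0'⟩, b0⟩ hk
    rw [hK, mem_product, mem_product, mem_product] at hk
    simp only [mem_Icc] at hk
    obtain ⟨⟨⟨k1, k2⟩, ⟨k3, k4⟩, k5, k6⟩, -⟩ := hk
    obtain ⟨S, hS⟩ : ∃ S, S = B.filter fun n => ((a n, h n, h' n), bx (f n)) = ((a0, h0, h0'), b0) :=
      ⟨_, rfl⟩
    rw [← hS]
    have hSm : ∀ n ∈ S, n ∈ B ∧ a n = a0 ∧ h n = h0 ∧ h' n = h0' ∧ bx (f n) = b0 := by
      intro n hn
      rw [hS, mem_filter, Prod.mk.injEq, Prod.mk.injEq, Prod.mk.injEq] at hn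
      obtain ⟨n1, ⟨n2, n3, n4⟩, n5⟩ := hn
      exact ⟨n1, n2, n3, n4, n5⟩
    have hh0 : (1 : ℝ) ≤ h0 := by exact_mod_cast k3
    have hh0' : (1 : ℝ) ≤ h0' := by exact_mod_cast k5
    have hhp : (0 : ℝ) < (h0 : ℝ) * h0' := by positivity
    have hSi : (S.image f).card = S.card := by
      refine card_image_of_injOn fun n hn n' hn' hff => ?_
      obtain ⟨n1, n2, n3, n4, n5⟩ := hSm n (mem_coe.1 hn)
      obtain ⟨m1, m2, m3, m4, m5⟩ := hSm n' (mem_coe.1 hn')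
      exact hinj n n1 n' m1 (n2.trans m2.symm) (n3.trans m3.symm) (n4.trans m4.symm) hff
    rcases S.eq_empty_or_nonempty with he | ⟨n0, hn0⟩
    · rw [he]
      simp only [card_empty, Nat.cast_zero]
      positivity
    have hVle : (h0 : ℝ) * h0' ≤ V := by
      obtain ⟨n1, n2, n3, n4, n5⟩ := hSm n0 hn0
      have := (hB n0 n1).2.2.2.2.2.2.1
      rw [n3, n4] at this
      exact this
    have h2 := hone a0 h0 h0' k1 k3 k5 η X (W ^ 3 / ((h0 : ℝ) * h0') ^ 2) hη hX (by positivity)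
      (S.image f) (by
        intro x hx
        obtain ⟨n, hn, rfl⟩ := mem_image.1 hx
        obtain ⟨n1, n2, n3, n4, n5⟩ := hSm n hn
        obtain ⟨b1, b2, b3, b4, b5, b6, b7, b8, b9, b10, b11⟩ := hB n n1
        rw [n2, n3, n4] at b8
        rw [n4] at b9 b10
        rw [n3, n4] at b11
        exact ⟨b8, b9, b10, b11⟩) (by
        intro x hx y hy
        obtain ⟨n, hn, rfl⟩ := mem_image.1 hx
        obtain ⟨n', hn', rfl⟩ := mem_image.1 hy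
        exact (hSm n hn).2.2.2.2.trans (hSm n' hn').2.2.2.2.symm)
    rw [hSi] at h2
    refine h2.trans ?_
    have ha0 : (a0 : ℝ) ≤ A := (Nat.le_floor_iff (by linarith)).1 k2
    have e1 : (a0 : ℝ) ^ 14 ≤ A ^ 14 := pow_le_pow_left₀ (Nat.cast_nonneg _) ha0 14
    have e2 : (W ^ 3 / ((h0 : ℝ) * h0') ^ 2) ^ (1 / 3 : ℝ) ≤
        W * V ^ (1 / 3 : ℝ) * (1 / (h0 : ℝ) * (1 / (h0' : ℝ))) := by
      obtain ⟨y, hy⟩ : ∃ y : ℝ, y = (h0 : ℝ) * h0' := ⟨_, rfl⟩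
      rw [← hy] at hhp hVle ⊢
      have g1 : 1 / (h0 : ℝ) * (1 / (h0' : ℝ)) = 1 / y := by rw [hy, one_div_mul_one_div]
      rw [g1, Real.div_rpow (by positivity) (by positivity), ← Real.rpow_natCast W 3,
        ← Real.rpow_mul hW, ← Real.rpow_natCast y 2, ← Real.rpow_mul hhp.le]
      have g2 : ((3 : ℕ) : ℝ) * (1 / 3) = 1 := by norm_num
      have g3 : ((2 : ℕ) : ℝ) * (1 / 3) = 1 - 1 / 3 := by norm_num
      rw [g2, g3, Real.rpow_one, Real.rpow_sub hhp, Real.rpow_one, mul_assoc]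
      rw [div_eq_mul_one_div W]
      refine mul_le_mul_of_nonneg_left ?_ hW
      rw [one_div_div, div_eq_mul_one_div]
      refine mul_le_mul_of_nonneg_right ?_ (by positivity)
      exact Real.rpow_le_rpow hhp.le hVle (by norm_num)
    calc D * (a0 : ℝ) ^ 14 * X ^ (ε + 3 * η) * (W ^ 3 / ((h0 : ℝ) * h0') ^ 2) ^ (1 / 3 : ℝ)
        ≤ D * A ^ 14 * X ^ (ε + 3 * η) *
          (W * V ^ (1 / 3 : ℝ) * (1 / (h0 : ℝ) * (1 / (h0' : ℝ)))) := by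
          refine mul_le_mul ?_ e2 (by positivity) (by positivity)
          refine mul_le_mul_of_nonneg_right ?_ (by positivity)
          exact mul_le_mul_of_nonneg_left e1 hD.le
      _ = _ := by ring
  rw [h1]
  refine (sum_le_sum hfib).trans ?_
  obtain ⟨Z, hZ⟩ : ∃ Z : ℝ, Z = D * A ^ 14 * X ^ (ε + 3 * η) * W * V ^ (1 / 3 : ℝ) := ⟨_, rfl⟩
  have hZ0 : 0 ≤ Z := by rw [hZ]; positivity
  rw [← hZ]
  have h3 : ∑ k ∈ K, Z * (1 / (k.1.2.1 : ℝ)) * (1 / (k.1.2.2 : ℝ)) =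
      Z * (⌊A⌋₊ : ℝ) * (∑ x ∈ Icc 1 N, (1 : ℝ) / x) ^ 2 * (J : ℝ) ^ 4 := by
    rw [hK, sum_product, sum_product]
    simp only [sum_product, sum_const, card_product, card_range, nsmul_eq_mul, Nat.card_Icc,
      Nat.add_sub_cancel]
    rw [sq]
    push_cast
    simp only [← mul_sum, ← sum_mul]
    ring
  rw [h3]
  have hsum := sum_inv_le N
  have hsum0 : 0 ≤ ∑ x ∈ Icc 1 N, (1 : ℝ) / x := sum_nonneg fun i _ => by positivity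
  have hAf : (⌊A⌋₊ : ℝ) ≤ A := Nat.floor_le (by linarith)
  have hlN : 0 ≤ Real.log N := Real.log_natCast_nonneg N
  calc Z * (⌊A⌋₊ : ℝ) * (∑ x ∈ Icc 1 N, (1 : ℝ) / x) ^ 2 * (J : ℝ) ^ 4
      ≤ Z * A * (1 + Real.log N) ^ 2 * (2 + 2 * Real.log X) ^ 4 := by
        refine mul_le_mul (mul_le_mul (mul_le_mul_of_nonneg_left hAf hZ0)
          (pow_le_pow_left₀ hsum0 hsum 2) (by positivity) (by positivity))
          (pow_le_pow_left₀ (Nat.cast_nonneg _) hJle 4) (by positivity) (by positivity)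
    _ = _ := by rw [hZ]; ring

end Pool.Agent.HP42.UF
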