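import Pool.Agent.HP42.UF.Viol

/-!
For almost all square parts, all abc triples satisfy `c < rad (a b c) ^ (1 - 1/2000)` (helper42).
-/

set_option autoImplicit false

namespace Pool.Agent.HP42.UF

open Finset Pool.Agent.W16.FX Pool.Agent.H785R2.ABC
open Pool.Agent.HP42.SQ (rad_sqf rad_gcd rad_mul_le rad_pow core srt srt_tr srt_N3 rr_le sq_unique)
open Pool.Agent.TH867.SR (Tr N3 rr rr_sum rr_nonneg)

/-- all the data of a violation -/
structure Dat (N n a b c m g h m' : ℕ) : Prop where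
  n1 : 1 ≤ n
  nN : n ≤ N
  a0 : 0 < a
  ab : a ≤ b
  s : a + b = c
  co : Nat.gcd a b = 1
  e : a * b * c = n ^ 2 * m
  sq : Squarefree m
  g1 : 1 ≤ g
  h1 : 1 ≤ h
  m1 : 1 ≤ m'
  ngh : n = g * h
  mgm : m = g * m'
  i1 : Real.log a + Real.log m' ≤ Real.log g + 3 / 500 * Real.log N
  i2 : Real.log c ≤ 3 * Real.log N
  i3 : Real.log g + Real.log m' ≤ (1 + 1 / 500) * Real.log c
  i4 : (rad (a * b * c) : ℝ) ≤ (N : ℝ) ^ 3

theorem Dat.e3 {N n a b c m g h m' : ℕ} (d : Dat N n a b c m g h m') :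
    a * b * c = g ^ 3 * h ^ 2 * m' := by
  rw [d.e, d.ngh, d.mgm]
  ring

theorem Dat.gN {N n a b c m g h m' : ℕ} (d : Dat N n a b c m g h m') : g ≤ N := by
  have h1 := d.nN
  rw [d.ngh] at h1
  have h2 : g ≤ g * h := Nat.le_mul_of_pos_right _ d.h1
  omega

theorem Dat.hN {N n a b c m g h m' : ℕ} (d : Dat N n a b c m g h m') : h ≤ N := by
  have h1 := d.nN
  rw [d.ngh] at h1
  have h2 : h ≤ g * h := Nat.le_mul_of_pos_left _ d.g1
  omega

theorem Dat.lgh {N n a b c m g h m' : ℕ} (d : Dat N n a b c m g h m') :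
    Real.log g + Real.log h ≤ Real.log N := by
  have hg' : (0 : ℝ) < g := by exact_mod_cast d.g1
  have hh' : (0 : ℝ) < h := by exact_mod_cast d.h1
  rw [← Real.log_mul hg'.ne' hh'.ne']
  refine Real.log_le_log (by positivity) ?_
  have h1 := d.nN
  rw [d.ngh] at h1
  exact_mod_cast h1

theorem exists_dat {N n a b c m : ℕ} (hn : 1 ≤ n) (hnN : n ≤ N) (ha : 0 < a) (hb : 0 < b)
    (hc : a + b = c) (hg : Nat.gcd a b = 1) (e : a * b * c = n ^ 2 * m) (hm : Squarefree m)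
    (hL : 1000 ≤ Real.log N) (hr : (N : ℝ) ^ (1 - 1 / 1000 : ℝ) ≤ rad n)
    (hv : (rad (a * b * c) : ℝ) ^ (1 - 1 / 2000 : ℝ) ≤ c) :
    ∃ a' b' c' g h m' : ℕ, Dat N n a' b' c' m g h m' := by
  rcases le_total a b with hab | hab
  · obtain ⟨g, h, m', g1, h1, m1, ngh, mgm, i1, i2, i3, i4⟩ := data hn hnN ha hab hc e hm hL hr hv
    exact ⟨a, b, c, g, h, m', hn, hnN, ha, hab, hc, hg, e, hm, g1, h1, m1, ngh, mgm, i1, i2, i3, i4⟩
  · have e' : b * a * c = n ^ 2 * m := by rw [mul_comm b a]; exact e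
    have hv' : (rad (b * a * c) : ℝ) ^ (1 - 1 / 2000 : ℝ) ≤ c := by rw [mul_comm b a]; exact hv
    obtain ⟨g, h, m', g1, h1, m1, ngh, mgm, i1, i2, i3, i4⟩ :=
      data hn hnN hb hab (by omega) e' hm hL hr hv'
    exact ⟨b, a, c, g, h, m', hn, hnN, hb, hab, by omega, by rw [Nat.gcd_comm]; exact hg, e', hm,
      g1, h1, m1, ngh, mgm, i1, i2, i3, i4⟩

/-- counting with `core` -/
theorem via {k : ℕ} (hk : 2 ≤ k) : ∃ C : ℝ, 0 < C ∧ ∀ N : ℕ, 1 ≤ N → ∀ (B : Finset ℕ)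
    (T : ℕ → Fin 3 → ℕ), Set.InjOn T B → (∀ n ∈ B, Tr (T n) ∧
      rr (T n) 0 + rr (T n) 1 + rr (T n) 2 ≤ Real.log ((N : ℝ) ^ 3) ∧
      ∃ e M : ℕ, 1 ≤ e ∧ e ≤ N ∧ N3 (T n) = e ^ k * M ∧
        (rad M : ℝ) ≤ (N : ℝ) ^ (1 - 7 / 3000 : ℝ)) →
    (B.card : ℝ) ≤ C * (N : ℝ) ^ (1 - 1 / 2000 : ℝ) := by
  classical
  obtain ⟨D, hD, h⟩ := core hk (1 / 3000) (by norm_num)
  refine ⟨2 * D, by positivity, fun N hN B T hT hB => ?_⟩
  have hN1 : (1 : ℝ) ≤ N := by exact_mod_cast hN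
  have hN0 : (0 : ℝ) < N := by linarith
  have hY1 : 1 ≤ (N : ℝ) ^ (1 - 7 / 3000 : ℝ) := Real.one_le_rpow hN1 (by norm_num)
  have hYX : (N : ℝ) ^ (1 - 7 / 3000 : ℝ) ≤ (N : ℝ) ^ 3 := by
    rw [← Real.rpow_natCast]
    refine Real.rpow_le_rpow_of_exponent_le hN1 ?_
    norm_num
  have hNX : (N : ℝ) ≤ (N : ℝ) ^ 3 := le_self_pow₀ hN1 (by norm_num)
  have h1 := h ((N : ℝ) ^ 3) (one_le_pow₀ hN1) N hN hNX _ hY1 hYX (B.image T) (by
    intro t ht
    obtain ⟨n, hn, rfl⟩ := mem_image.1 ht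
    exact hB n hn)
  rw [card_image_of_injOn hT] at h1
  refine h1.trans ?_
  have e1 : ((N : ℝ) ^ 3) ^ (1 / 3000 : ℝ) = (N : ℝ) ^ (1 / 1000 : ℝ) := by
    rw [← Real.rpow_natCast, ← Real.rpow_mul hN0.le]
    congr 1
    norm_num
  have e2 : (N : ℝ) ^ (1 - 7 / 3000 : ℝ) + (N : ℝ) ^ (1 / 3 : ℝ) *
      ((N : ℝ) ^ (1 - 7 / 3000 : ℝ)) ^ (2 / 3 : ℝ) ≤ 2 * (N : ℝ) ^ (1 - 14 / 9000 : ℝ) := by
    have g1 : (N : ℝ) ^ (1 - 7 / 3000 : ℝ) ≤ (N : ℝ) ^ (1 - 14 / 9000 : ℝ) :=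
      Real.rpow_le_rpow_of_exponent_le hN1 (by norm_num)
    have g2 : (N : ℝ) ^ (1 / 3 : ℝ) * ((N : ℝ) ^ (1 - 7 / 3000 : ℝ)) ^ (2 / 3 : ℝ) =
        (N : ℝ) ^ (1 - 14 / 9000 : ℝ) := by
      rw [← Real.rpow_mul hN0.le, ← Real.rpow_add hN0]
      congr 1
      norm_num
    rw [g2]
    linarith
  rw [e1]
  calc D * (N : ℝ) ^ (1 / 1000 : ℝ) * ((N : ℝ) ^ (1 - 7 / 3000 : ℝ) + (N : ℝ) ^ (1 / 3 : ℝ) *
        ((N : ℝ) ^ (1 - 7 / 3000 : ℝ)) ^ (2 / 3 : ℝ))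
      ≤ D * (N : ℝ) ^ (1 / 1000 : ℝ) * (2 * (N : ℝ) ^ (1 - 14 / 9000 : ℝ)) :=
        mul_le_mul_of_nonneg_left e2 (by positivity)
    _ = 2 * D * ((N : ℝ) ^ (1 / 1000 : ℝ) * (N : ℝ) ^ (1 - 14 / 9000 : ℝ)) := by ring
    _ = 2 * D * (N : ℝ) ^ (1 / 1000 + (1 - 14 / 9000) : ℝ) := by rw [← Real.rpow_add hN0]
    _ ≤ 2 * D * (N : ℝ) ^ (1 - 1 / 2000 : ℝ) := by
        refine mul_le_mul_of_nonneg_left ?_ (by positivity)
        exact Real.rpow_le_rpow_of_exponent_le hN1 (by norm_num)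

/-- the logarithms -/
theorem logs {N : ℝ} (hN : 1 ≤ N) : (1 + Real.log N) ^ 2 * (2 + 2 * Real.log (N ^ 3)) ^ 4 ≤
    6006 ^ 6 * N ^ (6 / 1000 : ℝ) := by
  have hN0 : 0 < N := by linarith
  have h0 : 0 ≤ Real.log N := Real.log_nonneg hN
  have h1 := Real.log_le_rpow_div hN0.le (show (0 : ℝ) < 1 / 1000 by norm_num)
  have h2 : 1 ≤ N ^ (1 / 1000 : ℝ) := Real.one_le_rpow hN (by norm_num)
  have h3 : 6 * (1 + Real.log N) ≤ 6006 * N ^ (1 / 1000 : ℝ) := by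
    have : N ^ (1 / 1000 : ℝ) / (1 / 1000) = 1000 * N ^ (1 / 1000 : ℝ) := by ring
    rw [this] at h1
    linarith
  rw [Real.log_pow]
  push_cast
  calc (1 + Real.log N) ^ 2 * (2 + 2 * (3 * Real.log N)) ^ 4
      ≤ (6 * (1 + Real.log N)) ^ 2 * (6 * (1 + Real.log N)) ^ 4 := by
        refine mul_le_mul (pow_le_pow_left₀ (by linarith) (by linarith) 2)
          (pow_le_pow_left₀ (by linarith) (by linarith) 4) (by positivity) (by positivity)
    _ = (6 * (1 + Real.log N)) ^ 6 := by ring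
    _ ≤ (6006 * N ^ (1 / 1000 : ℝ)) ^ 6 := pow_le_pow_left₀ (by positivity) h3 6
    _ = 6006 ^ 6 * N ^ (6 / 1000 : ℝ) := by
        rw [mul_pow, ← Real.rpow_natCast (N ^ (1 / 1000 : ℝ)), ← Real.rpow_mul hN0.le]
        congr 2
        norm_num

/-- counting with the near-curve bound -/
theorem curve : ∃ C : ℝ, 0 < C ∧ ∀ N : ℕ, 1 ≤ N → ∀ (B : Finset ℕ)
    (a b c m g h m' : ℕ → ℕ), (∀ n ∈ B, Dat N n (a n) (b n) (c n) (m n) (g n) (h n) (m' n)) →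
    (∀ n ∈ B, Real.log (a n) ≤ 1 / 120 * Real.log N ∧
      (1 / 2 - 1 / 120) * Real.log N ≤ Real.log (g n)) →
    (B.card : ℝ) ≤ C * (N : ℝ) ^ (1 - 1 / 2000 : ℝ) := by
  classical
  obtain ⟨D, hD, hall⟩ := all_boxes (1 / 3000) (by norm_num)
  refine ⟨D * 6006 ^ 6, by positivity, fun N hN B a b c m g h m' hB hB2 => ?_⟩
  have hN1 : (1 : ℝ) ≤ N := by exact_mod_cast hN
  have hN0 : (0 : ℝ) < N := by linarith
  have hlN : 0 ≤ Real.log N := Real.log_natCast_nonneg N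
  obtain ⟨A, hA⟩ : ∃ A : ℝ, A = (N : ℝ) ^ (1 / 120 : ℝ) := ⟨_, rfl⟩
  obtain ⟨W, hW⟩ : ∃ W : ℝ, W = (N : ℝ) ^ ((2 + 3 / 500) / 3 : ℝ) := ⟨_, rfl⟩
  obtain ⟨V, hV⟩ : ∃ V : ℝ, V = (N : ℝ) ^ (1 / 2 + 1 / 120 : ℝ) := ⟨_, rfl⟩
  have hW3 : W ^ 3 = (N : ℝ) ^ (2 + 3 / 500 : ℝ) := by
    rw [hW, ← Real.rpow_natCast, ← Real.rpow_mul hN0.le]
    congr 1
    norm_num
  have hcop : ∀ n ∈ B, 0 < a n ∧ 0 < b n ∧ 0 < c n ∧ Nat.Coprime (a n) (b n) ∧
      Nat.Coprime (a n) (c n) ∧ Nat.Coprime (b n) (c n) := by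
    intro n hn
    have d := hB n hn
    have h1 : Nat.Coprime (a n) (b n) := d.co
    have hb0 : 0 < b n := lt_of_lt_of_le d.a0 d.ab
    refine ⟨d.a0, hb0, by have := d.s; omega, h1, ?_, ?_⟩
    · rw [← d.s, Nat.coprime_self_add_right]; exact h1
    · rw [← d.s, Nat.coprime_add_self_right]; exact h1.symm
  have hsp : ∀ n ∈ B, b n = Nat.gcd (b n) (g n) ^ 3 * Nat.gcd (b n) (h n) ^ 2 *
        Nat.gcd (b n) (m' n) ∧
      c n = Nat.gcd (c n) (g n) ^ 3 * Nat.gcd (c n) (h n) ^ 2 * Nat.gcd (c n) (m' n) ∧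
      Nat.gcd (b n) (g n) * Nat.gcd (c n) (g n) ≤ g n ∧
      Nat.gcd (b n) (h n) * Nat.gcd (c n) (h n) ≤ h n ∧
      Nat.gcd (b n) (m' n) * Nat.gcd (c n) (m' n) ≤ m' n := by
    intro n hn
    have d := hB n hn
    obtain ⟨c1, c2, c3, c4, c5, c6⟩ := hcop n hn
    exact split c1 c2 c3 c4 c5 c6 d.e3
  have hmain := hall N hN (1 / 500) ((N : ℝ) ^ 3) A W V (by norm_num) (one_le_pow₀ hN1)
    (by rw [hA]; exact Real.one_le_rpow hN1 (by norm_num)) (by rw [hW]; positivity)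
    (by rw [hV]; exact Real.one_le_rpow hN1 (by norm_num)) B a
    (fun n => Nat.gcd (b n) (h n)) (fun n => Nat.gcd (c n) (h n))
    (fun n => (Nat.gcd (b n) (g n), Nat.gcd (c n) (g n), Nat.gcd (b n) (m' n),
      Nat.gcd (c n) (m' n))) ?_ ?_
  · -- the size of the bound
    refine hmain.trans ?_
    have h1 := logs hN1
    have e1 : A ^ 15 = (N : ℝ) ^ (15 / 120 : ℝ) := by
      rw [hA, ← Real.rpow_natCast, ← Real.rpow_mul hN0.le]
      congr 1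
      norm_num
    have e2 : ((N : ℝ) ^ 3) ^ (1 / 3000 + 3 * (1 / 500) : ℝ) = (N : ℝ) ^ (19 / 1000 : ℝ) := by
      rw [← Real.rpow_natCast, ← Real.rpow_mul hN0.le]
      congr 1
      norm_num
    have e3 : V ^ (1 / 3 : ℝ) = (N : ℝ) ^ (61 / 360 : ℝ) := by
      rw [hV, ← Real.rpow_mul hN0.le]
      congr 1
      norm_num
    rw [e1, e2, e3, hW]
    have e4 : (N : ℝ) ^ (15 / 120 : ℝ) * (N : ℝ) ^ (19 / 1000 : ℝ) *
        (N : ℝ) ^ ((2 + 3 / 500) / 3 : ℝ) * (N : ℝ) ^ (61 / 360 : ℝ) *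
        (N : ℝ) ^ (6 / 1000 : ℝ) ≤ (N : ℝ) ^ (1 - 1 / 2000 : ℝ) := by
      rw [← Real.rpow_add hN0, ← Real.rpow_add hN0, ← Real.rpow_add hN0, ← Real.rpow_add hN0]
      exact Real.rpow_le_rpow_of_exponent_le hN1 (by norm_num)
    calc D * (N : ℝ) ^ (15 / 120 : ℝ) * (N : ℝ) ^ (19 / 1000 : ℝ) *
          (N : ℝ) ^ ((2 + 3 / 500) / 3 : ℝ) * (N : ℝ) ^ (61 / 360 : ℝ) * (1 + Real.log N) ^ 2 *
          (2 + 2 * Real.log ((N : ℝ) ^ 3)) ^ 4
        = D * ((N : ℝ) ^ (15 / 120 : ℝ) * (N : ℝ) ^ (19 / 1000 : ℝ) *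
          (N : ℝ) ^ ((2 + 3 / 500) / 3 : ℝ) * (N : ℝ) ^ (61 / 360 : ℝ)) *
          ((1 + Real.log N) ^ 2 * (2 + 2 * Real.log ((N : ℝ) ^ 3)) ^ 4) := by ring
      _ ≤ D * ((N : ℝ) ^ (15 / 120 : ℝ) * (N : ℝ) ^ (19 / 1000 : ℝ) *
          (N : ℝ) ^ ((2 + 3 / 500) / 3 : ℝ) * (N : ℝ) ^ (61 / 360 : ℝ)) *
          (6006 ^ 6 * (N : ℝ) ^ (6 / 1000 : ℝ)) :=
          mul_le_mul_of_nonneg_left h1 (by positivity)
      _ = D * 6006 ^ 6 * ((N : ℝ) ^ (15 / 120 : ℝ) * (N : ℝ) ^ (19 / 1000 : ℝ) *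
          (N : ℝ) ^ ((2 + 3 / 500) / 3 : ℝ) * (N : ℝ) ^ (61 / 360 : ℝ) *
          (N : ℝ) ^ (6 / 1000 : ℝ)) := by ring
      _ ≤ D * 6006 ^ 6 * (N : ℝ) ^ (1 - 1 / 2000 : ℝ) :=
          mul_le_mul_of_nonneg_left e4 (by positivity)
  · -- the conditions
    intro n hn
    have d := hB n hn
    obtain ⟨c1, c2, c3, c4, c5, c6⟩ := hcop n hn
    obtain ⟨s1, s2, s3, s4, s5⟩ := hsp n hn
    obtain ⟨t1, t2⟩ := hB2 n hn
    obtain ⟨x, hx⟩ : ∃ x, x = Nat.gcd (b n) (g n) := ⟨_, rfl⟩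
    obtain ⟨y, hy⟩ : ∃ y, y = Nat.gcd (c n) (g n) := ⟨_, rfl⟩
    obtain ⟨z, hz⟩ : ∃ z, z = Nat.gcd (b n) (m' n) := ⟨_, rfl⟩
    obtain ⟨w, hw⟩ : ∃ w, w = Nat.gcd (c n) (m' n) := ⟨_, rfl⟩
    obtain ⟨p, hp⟩ : ∃ p, p = Nat.gcd (b n) (h n) := ⟨_, rfl⟩
    obtain ⟨q, hq⟩ : ∃ q, q = Nat.gcd (c n) (h n) := ⟨_, rfl⟩
    have x1 : 1 ≤ x := by rw [hx]; exact Nat.gcd_pos_of_pos_left _ c2
    have y1 : 1 ≤ y := by rw [hy]; exact Nat.gcd_pos_of_pos_left _ c3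
    have z1 : 1 ≤ z := by rw [hz]; exact Nat.gcd_pos_of_pos_left _ c2
    have w1 : 1 ≤ w := by rw [hw]; exact Nat.gcd_pos_of_pos_left _ c3
    have p1 : 1 ≤ p := by rw [hp]; exact Nat.gcd_pos_of_pos_left _ c2
    have q1 : 1 ≤ q := by rw [hq]; exact Nat.gcd_pos_of_pos_left _ c3
    rw [← hx, ← hz, ← hp] at s1
    rw [← hy, ← hw, ← hq] at s2
    rw [← hx, ← hy] at s3
    rw [← hp, ← hq] at s4
    rw [← hz, ← hw] at s5
    rw [← hx, ← hy, ← hz, ← hw, ← hp, ← hq]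
    have hhN : h n ≤ N := d.hN
    have hpN : p ≤ N := by
      have : p ≤ p * q := Nat.le_mul_of_pos_right _ q1
      omega
    have hqN : q ≤ N := by
      have : q ≤ p * q := Nat.le_mul_of_pos_left _ p1
      omega
    have ha' : (0 : ℝ) < a n := by exact_mod_cast c1
    have hg' : (0 : ℝ) < g n := by exact_mod_cast d.g1
    have hh' : (0 : ℝ) < h n := by exact_mod_cast d.h1
    have hm' : (0 : ℝ) < m' n := by exact_mod_cast d.m1
    have hc' : (0 : ℝ) < c n := by exact_mod_cast c3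
    have hpq : (p : ℝ) * q ≤ h n := by exact_mod_cast s4
    have hpq0 : (0 : ℝ) < (p : ℝ) * q := by
      have : 0 < p * q := Nat.mul_pos p1 q1
      exact_mod_cast this
    have hgh := d.lgh
    have hcval : (qd (x, y, z, w)).c ((q ^ 2 : ℕ) : ℤ) = (c n : ℤ) := by
      rw [s2]
      simp only [Quad.c, qd]
      push_cast
      ring
    have hprod : ((qd (x, y, z, w)).prod : ℝ) ≤ (g n : ℝ) * m' n := by
      have h1 : ((qd (x, y, z, w)).prod : ℝ) = ((x * y : ℕ) : ℝ) * ((z * w : ℕ) : ℝ) := by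
        simp only [Quad.prod, qd]
        push_cast
        ring
      rw [h1]
      have h2 : ((x * y : ℕ) : ℝ) ≤ g n := by exact_mod_cast s3
      have h3 : ((z * w : ℕ) : ℝ) ≤ m' n := by exact_mod_cast s5
      exact mul_le_mul h2 h3 (Nat.cast_nonneg _) hg'.le
    have j1 := d.i1
    have j2 := d.i2
    have j3 := d.i3
    have la : 0 ≤ Real.log (a n) := Real.log_natCast_nonneg _
    refine ⟨c1, ?_, p1, hpN, q1, hqN, ?_, ?_, ?_, ?_, ?_⟩
    · rw [hA, ← Real.log_le_log_iff ha' (by positivity), Real.log_rpow hN0]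
      exact t1
    · refine hpq.trans ?_
      rw [hV, ← Real.log_le_log_iff hh' (by positivity), Real.log_rpow hN0]
      linarith
    · refine ⟨by simp only [qd]; exact_mod_cast x1, by simp only [qd]; exact_mod_cast y1,
        by simp only [qd]; exact_mod_cast z1, by simp only [qd]; exact_mod_cast w1, ?_, ?_⟩
      · simp only [qd]
        have e1 : a n + b n = c n := d.s
        rw [s1, s2] at e1
        have e2 : p ^ 2 * z * x ^ 3 + a n = q ^ 2 * w * y ^ 3 := by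
          calc p ^ 2 * z * x ^ 3 + a n = a n + x ^ 3 * p ^ 2 * z := by ring
            _ = y ^ 3 * q ^ 2 * w := e1
            _ = q ^ 2 * w * y ^ 3 := by ring
        exact_mod_cast e2
      · simp only [qd]
        have e1 : Nat.Coprime (p ^ 2 * z * x) (q ^ 2 * w * y) := by
          have d1 : p ^ 2 * z * x ∣ b n := by
            rw [s1]
            exact ⟨x ^ 2, by ring⟩
          have d2 : q ^ 2 * w * y ∣ c n := by
            rw [s2]
            exact ⟨y ^ 2, by ring⟩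
          exact Nat.Coprime.coprime_dvd_left d1 (Nat.Coprime.coprime_dvd_right d2 c6)
        exact_mod_cast Nat.isCoprime_iff_coprime.2 e1
    · rw [hcval]
      refine hprod.trans ?_
      have : (((c n : ℕ) : ℤ) : ℝ) = (c n : ℝ) := by norm_cast
      rw [this, ← Real.log_le_log_iff (by positivity) (by positivity), Real.log_rpow hc',
        Real.log_mul hg'.ne' hm'.ne']
      exact j3
    · rw [hcval]
      have : (((c n : ℕ) : ℤ) : ℝ) = (c n : ℝ) := by norm_cast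
      rw [this, ← Real.log_le_log_iff hc' (by positivity), Real.log_pow]
      push_cast
      exact j2
    · refine hprod.trans ?_
      rw [hW3, le_div_iff₀ (by positivity)]
      have g1 : (g n : ℝ) * m' n * ((p : ℝ) * q) ^ 2 ≤ (g n : ℝ) * m' n * (h n : ℝ) ^ 2 :=
        mul_le_mul_of_nonneg_left (pow_le_pow_left₀ hpq0.le hpq 2) (by positivity)
      refine g1.trans ?_
      rw [← Real.log_le_log_iff (by positivity) (by positivity), Real.log_rpow hN0,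
        Real.log_mul (by positivity) (by positivity), Real.log_mul hg'.ne' hm'.ne', Real.log_pow]
      push_cast
      linarith
  · -- injectivity
    intro n hn n' hn' e1 e2 e3 e4
    have d := hB n hn
    have d' := hB n' hn'
    obtain ⟨s1, s2, -, -, -⟩ := hsp n hn
    obtain ⟨s1', s2', -, -, -⟩ := hsp n' hn'
    simp only [Prod.mk.injEq] at e2 e3 e4
    obtain ⟨f1, f2, f3, f4⟩ := e4
    have hb : b n = b n' := by
      rw [s1, s1', f1, e2, f3]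
    have hc : c n = c n' := by
      rw [s2, s2', f2, e3, f4]
    have he : n ^ 2 * m n = n' ^ 2 * m n' := by
      rw [← d.e, ← d'.e, e1, hb, hc]
    exact sq_unique d.n1 d'.n1 d.sq d'.sq he

/-- **for almost all square parts no abc triple is a hit** -/
theorem beyond : ∃ C : ℝ, 0 < C ∧ ∀ N : ℕ, 1 ≤ N →
    ∀ F : Finset ℕ, (∀ n ∈ F, 1 ≤ n ∧ n ≤ N ∧ ∃ a b c m : ℕ, (0 < a ∧ 0 < b ∧ a + b = c ∧
      Nat.gcd a b = 1) ∧ a * b * c = n ^ 2 * m ∧ Squarefree m ∧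
        (rad (a * b * c) : ℝ) ^ (1 - 1 / 2000 : ℝ) ≤ c) →
    (F.card : ℝ) ≤ C * (N : ℝ) ^ (1 - 1 / 2000 : ℝ) := by
  classical
  obtain ⟨C2, hC2, via2⟩ := via (k := 2) le_rfl
  obtain ⟨C3, hC3, via3⟩ := via (k := 3) (by norm_num)
  obtain ⟨C4, hC4, hcurve⟩ := curve
  obtain ⟨D, hD, h4⟩ := stmtA4_of (stmtA3_of stmtA2) (1 / 2000) (by norm_num)
  refine ⟨Real.exp 1000 + D + C2 + C3 + C4, by positivity, fun N hN F hF => ?_⟩
  have hN1 : (1 : ℝ) ≤ N := by exact_mod_cast hN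
  have hN0 : (0 : ℝ) < N := by linarith
  obtain ⟨Z, hZ⟩ : ∃ Z : ℝ, Z = (N : ℝ) ^ (1 - 1 / 2000 : ℝ) := ⟨_, rfl⟩
  have hZ1 : 1 ≤ Z := by rw [hZ]; exact Real.one_le_rpow hN1 (by norm_num)
  have hZ0 : 0 < Z := by linarith
  have hexp : 0 < Real.exp 1000 := Real.exp_pos _
  rcases lt_or_ge (Real.log N) 1000 with hsm | hL
  · -- small `N`
    have h1 : F.card ≤ N := by
      have : F ⊆ Icc 1 N := fun n hn => mem_Icc.2 ⟨(hF n hn).1, (hF n hn).2.1⟩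
      have h2 := card_le_card this
      rwa [Nat.card_Icc, Nat.add_sub_cancel] at h2
    have h2 : (N : ℝ) ≤ Real.exp 1000 := by
      rw [← Real.exp_log hN0]
      exact Real.exp_le_exp.2 hsm.le
    have h3 : (F.card : ℝ) ≤ N := by exact_mod_cast h1
    rw [← hZ]
    calc (F.card : ℝ) ≤ Real.exp 1000 * 1 := by rw [mul_one]; linarith
      _ ≤ (Real.exp 1000 + D + C2 + C3 + C4) * Z :=
          mul_le_mul (by linarith) hZ1 (by norm_num) (by positivity)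
  obtain ⟨R, hR⟩ : ∃ R : ℝ, R = (N : ℝ) ^ (1 - 1 / 1000 : ℝ) := ⟨_, rfl⟩
  have hR0 : 0 < R := by rw [hR]; positivity
  have b1 : ((F.filter fun n => (rad n : ℝ) ≤ R).card : ℝ) ≤ D * Z := by
    have g1 := h4 N hN R hR0.le
    have g2 : (F.filter fun n => (rad n : ℝ) ≤ R) ⊆
        (Icc 1 N).filter fun d => (rad d : ℝ) ≤ R := by
      intro n hn
      rw [mem_filter] at hn ⊢
      obtain ⟨n1, n2, -⟩ := hF n hn.1
      exact ⟨mem_Icc.2 ⟨n1, n2⟩, hn.2⟩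
    have g3 : ((F.filter fun n => (rad n : ℝ) ≤ R).card : ℝ) ≤
        (((Icc 1 N).filter fun d => (rad d : ℝ) ≤ R).card : ℝ) := by
      exact_mod_cast card_le_card g2
    refine (g3.trans g1).trans (le_of_eq ?_)
    rw [hR, hZ, mul_assoc, ← Real.rpow_add hN0]
    congr 2
    norm_num
  obtain ⟨G, hG⟩ : ∃ G, G = F.filter fun n => ¬ (rad n : ℝ) ≤ R := ⟨_, rfl⟩
  have hGd : ∀ n ∈ G, ∃ a b c m g h m' : ℕ, Dat N n a b c m g h m' := by
    intro n hn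
    rw [hG, mem_filter] at hn
    obtain ⟨n1, n2, a, b, c, m, ⟨a1, a2, a3, a4⟩, d1, d2, d3⟩ := hF n hn.1
    obtain ⟨a', b', c', g, h, m', d⟩ := exists_dat n1 n2 a1 a2 a3 a4 d1 d2 hL
      (by rw [← hR]; exact (not_le.1 hn.2).le) d3
    exact ⟨a', b', c', m, g, h, m', d⟩
  choose! a b c m g h m' hd using hGd
  obtain ⟨T, hT⟩ : ∃ T : ℕ → Fin 3 → ℕ, T = fun n => srt (a n) (b n) (c n) := ⟨_, rfl⟩
  have hTe : ∀ n, T n = srt (a n) (b n) (c n) := fun n => by rw [hT]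
  have hTr : ∀ n ∈ G, Tr (T n) := fun n hn => by
    have d := hd n hn
    rw [hTe]
    exact srt_tr d.a0 (lt_of_lt_of_le d.a0 d.ab) d.s d.co
  have hN3 : ∀ n ∈ G, N3 (T n) = n ^ 2 * m n := fun n hn => by
    rw [hTe, srt_N3, (hd n hn).e]
  have hinj : Set.InjOn T G := by
    intro n hn n' hn' hTT
    have p1 := hN3 n (mem_coe.1 hn)
    have p2 := hN3 n' (mem_coe.1 hn')
    rw [← hTT, p1] at p2
    have d := hd n (mem_coe.1 hn)
    have d' := hd n' (mem_coe.1 hn')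
    exact sq_unique d.n1 d'.n1 d.sq d'.sq p2
  have hrr : ∀ n ∈ G, rr (T n) 0 + rr (T n) 1 + rr (T n) 2 ≤ Real.log ((N : ℝ) ^ 3) :=
    fun n hn => by
      have d := hd n hn
      refine rr_le (hTr n hn) ?_
      rw [hTe, srt_N3]
      exact d.i4
  obtain ⟨G1, hG1⟩ : ∃ G1, G1 = G.filter fun n => ¬ Real.log (a n) ≤ 1 / 120 * Real.log N :=
    ⟨_, rfl⟩
  obtain ⟨G0, hG0⟩ : ∃ G0, G0 = G.filter fun n => Real.log (a n) ≤ 1 / 120 * Real.log N :=
    ⟨_, rfl⟩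
  obtain ⟨G2, hG2⟩ : ∃ G2, G2 = G0.filter fun n => ¬ (1 / 2 - 1 / 120) * Real.log N ≤
    Real.log (g n) := ⟨_, rfl⟩
  obtain ⟨G3, hG3⟩ : ∃ G3, G3 = G0.filter fun n => (1 / 2 - 1 / 120) * Real.log N ≤
    Real.log (g n) := ⟨_, rfl⟩
  have hsub1 : G1 ⊆ G := by rw [hG1]; exact filter_subset _ _
  have hsub0 : G0 ⊆ G := by rw [hG0]; exact filter_subset _ _
  have hsub2 : G2 ⊆ G := by rw [hG2]; exact (filter_subset _ _).trans hsub0
  have hsub3 : G3 ⊆ G := by rw [hG3]; exact (filter_subset _ _).trans hsub0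
  have c1 : (G1.card : ℝ) ≤ C3 * Z := by
    rw [hZ]
    refine via3 N hN G1 T (hinj.mono (coe_subset.2 hsub1)) fun n hn => ?_
    have hnG := hsub1 hn
    have d := hd n hnG
    rw [hG1, mem_filter, not_le] at hn
    refine ⟨hTr n hnG, hrr n hnG, g n, h n ^ 2 * m' n, d.g1, d.gN, ?_, ?_⟩
    · rw [hTe, srt_N3, d.e3]
      ring
    · have g1 : rad (h n ^ 2 * m' n) ≤ h n * m' n := by
        refine (rad_mul_le (by have := d.h1; positivity) (by have := d.m1; omega)).trans ?_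
        rw [rad_pow (by norm_num)]
        exact Nat.mul_le_mul (rad_le_self d.h1) (rad_le_self d.m1)
      have g2 : (rad (h n ^ 2 * m' n) : ℝ) ≤ (h n : ℝ) * m' n := by exact_mod_cast g1
      refine g2.trans ?_
      have hg' : (0 : ℝ) < g n := by exact_mod_cast d.g1
      have hh' : (0 : ℝ) < h n := by exact_mod_cast d.h1
      have hm' : (0 : ℝ) < m' n := by exact_mod_cast d.m1
      have hgh := d.lgh
      have j1 := d.i1
      have j2 := hn.2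
      rw [← Real.log_le_log_iff (by positivity) (by positivity), Real.log_rpow hN0,
        Real.log_mul hh'.ne' hm'.ne']
      linarith
  have c2 : (G2.card : ℝ) ≤ C2 * Z := by
    rw [hZ]
    refine via2 N hN G2 T (hinj.mono (coe_subset.2 hsub2)) fun n hn => ?_
    have hnG := hsub2 hn
    have d := hd n hnG
    rw [hG2, mem_filter, not_le] at hn
    refine ⟨hTr n hnG, hrr n hnG, n, m n, d.n1, d.nN, hN3 n hnG, ?_⟩
    rw [rad_sqf d.sq, d.mgm]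
    have hg' : (0 : ℝ) < g n := by exact_mod_cast d.g1
    have hm' : (0 : ℝ) < m' n := by exact_mod_cast d.m1
    have j1 := d.i1
    have j2 := hn.2
    have la : 0 ≤ Real.log (a n) := Real.log_natCast_nonneg _
    push_cast
    rw [← Real.log_le_log_iff (by positivity) (by positivity), Real.log_rpow hN0,
      Real.log_mul hg'.ne' hm'.ne']
    linarith
  have c3 : (G3.card : ℝ) ≤ C4 * Z := by
    rw [hZ]
    refine hcurve N hN G3 a b c m g h m' (fun n hn => hd n (hsub3 hn)) fun n hn => ?_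
    rw [hG3, mem_filter, hG0, mem_filter] at hn
    exact ⟨hn.1.2, hn.2⟩
  have k1 : F.card = (F.filter fun n => (rad n : ℝ) ≤ R).card + G.card := by
    rw [hG]
    exact (Finset.card_filter_add_card_filter_not _).symm
  have k2 : G.card = G0.card + G1.card := by
    rw [hG0, hG1]
    exact (Finset.card_filter_add_card_filter_not _).symm
  have k3 : G0.card = G3.card + G2.card := by
    rw [hG3, hG2]
    exact (Finset.card_filter_add_card_filter_not _).symm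
  rw [k1, k2, k3, ← hZ]
  push_cast
  have : 0 ≤ Real.exp 1000 * Z := by positivity
  linarith

end Pool.Agent.HP42.UF
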