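import Pool.Agent.W74.FX.Run

/-!
A bounded number of solutions on a nondegenerate quartic curve, with an explicit bound: the proof
of `Pool.Agent.W74.FX.stmtRun`, with the constant in the statement (helper42).
-/

set_option autoImplicit false

namespace Pool.Agent.HP42.UF

open Finset Pool.Agent.W16.FX Polynomial Pool.Agent.W74.FX

/-- FX-RUN with an explicit constant -/
theorem run (u : ℤ) (hu : 1 ≤ u) : ∀ M N α β γ δ g : ℤ, 1 ≤ M → 1 ≤ N → g ≠ 0 →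
    α * δ - β * γ ≠ 0 → ∀ T : Finset Quad,
    (∀ t ∈ T, 0 < t.p ∧ 0 < t.p' ∧ IsCoprime t.p t.p' ∧
      M * t.q * t.p ^ 3 + u = N * t.q' * t.p' ^ 3 ∧
      α * t.p + γ * t.p' = g * t.q' ∧ β * t.p + δ * t.p' = -(g * t.q)) →
    (∀ t ∈ T, ∀ s ∈ T, t.p' ≤ 256 * s.p') →
    T.card ≤ (1024 * (4 * (16 * 256 ^ 4 * u.toNat) + 1) + 1) ^ 2 * 16 := by
  classical
  obtain ⟨V, hV⟩ : ∃ V : ℕ, V = 16 * 256 ^ 4 * u.toNat := ⟨_, rfl⟩
  have hVr : (V : ℝ) = 16 * 256 ^ 4 * (u : ℝ) := by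
    rw [hV]
    push_cast
    have : ((u.toNat : ℤ) : ℝ) = (u : ℝ) := by rw [Int.toNat_of_nonneg (by omega)]
    rw [← this]
    push_cast
    ring
  rw [← hV]
  intro M N α β γ δ g hM hN hg hdet T hT hcomp
  have hgr : (g : ℝ) ≠ 0 := by exact_mod_cast hg
  have hMr : (M : ℝ) ≠ 0 := by exact_mod_cast (by omega : M ≠ 0)
  have hNr : (N : ℝ) ≠ 0 := by exact_mod_cast (by omega : N ≠ 0)
  have hur : (0 : ℝ) < u := by exact_mod_cast (by omega : 0 < u)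
  obtain ⟨c4, hc4⟩ : ∃ c : ℝ, c = M * β / g := ⟨_, rfl⟩
  obtain ⟨c3, hc3⟩ : ∃ c : ℝ, c = M * δ / g := ⟨_, rfl⟩
  obtain ⟨c1, hc1⟩ : ∃ c : ℝ, c = N * α / g := ⟨_, rfl⟩
  obtain ⟨c0, hc0⟩ : ∃ c : ℝ, c = N * γ / g := ⟨_, rfl⟩
  have hz : ∀ (A x : ℤ), (A : ℝ) ≠ 0 → (A : ℝ) * x / g = 0 → x = 0 := by
    intro A x hA h
    rw [div_eq_zero_iff] at h
    rcases h with h | h
    · rcases mul_eq_zero.1 h with h | h
      · exact absurd h hA
      · exact_mod_cast h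
    · exact absurd h hgr
  have hc : ¬ (c3 = 0 ∧ c1 = 0 ∧ (c4 = 0 ∨ c0 = 0)) := by
    rintro ⟨h3, h1, h⟩
    rw [hc3] at h3
    rw [hc1] at h1
    have e3 := hz M δ hMr h3
    have e1 := hz N α hNr h1
    apply hdet
    rcases h with h | h
    · rw [hc4] at h
      have e4 := hz M β hMr h
      rw [e3, e4]; ring
    · rw [hc0] at h
      have e0 := hz N γ hNr h
      rw [e3, e0]; ring
  -- the values on the lines
  have hline : ∀ t ∈ T, ∀ s ∈ T, ∀ k : ℝ,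
      HH c4 c3 c1 c0 ((t.p : ℝ) + k * (s.p - t.p)) (t.p' + k * (s.p' - t.p')) =
      N * (t.q' + k * (s.q' - t.q')) * (t.p' + k * (s.p' - t.p')) ^ 3 -
        M * (t.q + k * (s.q - t.q)) * (t.p + k * (s.p - t.p)) ^ 3 := by
    intro t ht s hs k
    obtain ⟨_, _, _, _, f1, f2⟩ := hT t ht
    obtain ⟨_, _, _, _, f3, f4⟩ := hT s hs
    have r1 : (α : ℝ) * t.p + γ * t.p' = g * t.q' := by exact_mod_cast f1
    have r2 : (β : ℝ) * t.p + δ * t.p' = -(g * t.q) := by exact_mod_cast f2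
    have r3 : (α : ℝ) * s.p + γ * s.p' = g * s.q' := by exact_mod_cast f3
    have r4 : (β : ℝ) * s.p + δ * s.p' = -(g * s.q) := by exact_mod_cast f4
    have q1 : (t.q' : ℝ) = (α * t.p + γ * t.p') / g := by field_simp; linarith
    have q2 : (t.q : ℝ) = -(β * t.p + δ * t.p') / g := by field_simp; linarith
    have q3 : (s.q' : ℝ) = (α * s.p + γ * s.p') / g := by field_simp; linarith
    have q4 : (s.q : ℝ) = -(β * s.p + δ * s.p') / g := by field_simp; linarith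
    unfold HH
    rw [q1, q2, q3, q4, hc4, hc3, hc1, hc0]
    field_simp
    ring
  have hval : ∀ t ∈ T, HH c4 c3 c1 c0 t.p t.p' = u := by
    intro t ht
    have h1 := hline t ht t ht 0
    obtain ⟨_, _, _, f, _, _⟩ := hT t ht
    have r : (M : ℝ) * t.q * t.p ^ 3 + u = N * t.q' * t.p' ^ 3 := by exact_mod_cast f
    simp only [zero_mul, add_zero] at h1
    rw [h1]
    linarith
  have hinjT : Set.InjOn (fun t : Quad => (t.p, t.p')) (T : Set Quad) := by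
    intro t ht s hs hts
    have e1 : t.p = s.p := congrArg Prod.fst hts
    have e2 : t.p' = s.p' := congrArg Prod.snd hts
    obtain ⟨_, _, _, _, f1, f2⟩ := hT t ht
    obtain ⟨_, _, _, _, f3, f4⟩ := hT s hs
    rw [e1, e2] at f1 f2
    have e3 : t.q' = s.q' := mul_left_cancel₀ hg (f1.symm.trans f3)
    have e4 : t.q = s.q := by
      have : g * t.q = g * s.q := by linarith
      exact mul_left_cancel₀ hg this
    exact Quad.ext e1 e2 e4 e3
  rcases T.eq_empty_or_nonempty with hTe | hTne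
  · rw [hTe]; simp
  obtain ⟨t0, ht0, hmax⟩ := Finset.exists_max_image T (fun t => t.p') hTne
  obtain ⟨P, hPd⟩ : ∃ P : ℝ, P = t0.p' := ⟨_, rfl⟩
  have hP : 0 < P := by
    rw [hPd]; exact_mod_cast (hT t0 ht0).2.1
  -- the pairs
  obtain ⟨S, hSd⟩ : ∃ S : Finset (ℤ × ℤ), S = T.image (fun t => (t.p, t.p')) := ⟨_, rfl⟩
  have hcard : T.card = S.card := by
    rw [hSd, Finset.card_image_of_injOn hinjT]
  have hSmem : ∀ l ∈ S, ∃ t ∈ T, l = (t.p, t.p') := by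
    intro l hl
    rw [hSd] at hl
    obtain ⟨t, ht, e⟩ := Finset.mem_image.1 hl
    exact ⟨t, ht, e.symm⟩
  have hSprop : ∀ l ∈ S, 0 < l.2 ∧ (l.2 : ℝ) ≤ P ∧ P ≤ 256 * l.2 ∧
      HH c4 c3 c1 c0 l.1 l.2 = u := by
    intro l hl
    obtain ⟨t, ht, rfl⟩ := hSmem l hl
    refine ⟨(hT t ht).2.1, ?_, ?_, hval t ht⟩
    · rw [hPd]; exact_mod_cast hmax t ht
    · rw [hPd]; exact_mod_cast hcomp t0 ht0 t ht
  have hSinj : ∀ l ∈ S, ∀ l' ∈ S, l.1 * l'.2 = l'.1 * l.2 → l = l' := by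
    intro l hl l' hl' e
    obtain ⟨t, ht, rfl⟩ := hSmem l hl
    obtain ⟨s, hs, rfl⟩ := hSmem l' hl'
    obtain ⟨a1, a2, a3, _⟩ := hT t ht
    obtain ⟨b1, b2, b3, _⟩ := hT s hs
    obtain ⟨e1, e2⟩ := ratio_inj a1 a2 b1 b2 a3 b3 e
    exact Prod.ext e1 e2
  have hSint : ∀ l ∈ S, ∀ l' ∈ S, ∀ k : ℕ, ∃ n : ℤ,
      HH c4 c3 c1 c0 ((l.1 : ℝ) + k * (l'.1 - l.1)) (l.2 + k * (l'.2 - l.2)) = n := by
    intro l hl l' hl' k
    obtain ⟨t, ht, rfl⟩ := hSmem l hl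
    obtain ⟨s, hs, rfl⟩ := hSmem l' hl'
    refine ⟨N * (t.q' + k * (s.q' - t.q')) * (t.p' + k * (s.p' - t.p')) ^ 3 -
        M * (t.q + k * (s.q - t.q)) * (t.p + k * (s.p - t.p)) ^ 3, ?_⟩
    have := hline t ht s hs k
    rw [this]
    push_cast
    ring
  -- the critical points
  obtain ⟨Q, hQ⟩ : ∃ Q : ℝ[X], Q = C (4 * c4) * X ^ 3 + C (3 * c3) * X ^ 2 + C c1 := ⟨_, rfl⟩
  have hQev : ∀ t, Q.eval t = 4 * c4 * t ^ 3 + 3 * c3 * t ^ 2 + c1 := by
    intro t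
    rw [hQ]
    simp only [eval_add, eval_mul, eval_C, eval_X, eval_pow]
  have hQdeg : Q.natDegree ≤ 3 := by
    rw [hQ]
    compute_degree
  have hQ0 : Q ≠ 0 := by
    intro h
    have hev : ∀ t : ℝ, 4 * c4 * t ^ 3 + 3 * c3 * t ^ 2 + c1 = 0 := by
      intro t
      rw [← hQev, h, eval_zero]
    have e0 := hev 0
    have e1 := hev 1
    have e2 := hev (-1)
    norm_num at e0 e1 e2
    apply hc
    refine ⟨by linarith, e0, Or.inl (by linarith)⟩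
  obtain ⟨R, hR⟩ : ∃ R : Finset ℝ, R = Q.roots.toFinset := ⟨_, rfl⟩
  have hRcard : R.card ≤ 3 := by
    rw [hR]
    exact (Multiset.toFinset_card_le _).trans ((Polynomial.card_roots' Q).trans hQdeg)
  have hRmem : ∀ t : ℝ, 4 * c4 * t ^ 3 + 3 * c3 * t ^ 2 + c1 = 0 → t ∈ R := by
    intro t ht
    rw [hR, Multiset.mem_toFinset, Polynomial.mem_roots hQ0, IsRoot.def, hQev]
    exact ht
  let κ : ℤ × ℤ → ℕ × ℕ := fun l =>
    ((R.filter (fun r => r < (l.1 : ℝ) / l.2)).card, (R.filter (fun r => r ≤ (l.1 : ℝ) / l.2)).card)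
  have hmaps : ∀ l ∈ S, κ l ∈ range 4 ×ˢ range 4 := by
    intro l _
    rw [Finset.mem_product, Finset.mem_range, Finset.mem_range]
    exact ⟨Nat.lt_succ_of_le ((Finset.card_filter_le _ _).trans hRcard),
      Nat.lt_succ_of_le ((Finset.card_filter_le _ _).trans hRcard)⟩
  rw [hcard]
  have hfin := Finset.card_le_mul_card_image_of_maps_to (s := S) (t := range 4 ×ˢ range 4)
    (f := κ) hmaps ((1024 * (4 * V + 1) + 1) ^ 2) ?_
  · rw [Finset.card_product, Finset.card_range] at hfin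
    exact hfin
  intro col _
  obtain ⟨S', hS'⟩ : ∃ S' : Finset (ℤ × ℤ), S' = S.filter (fun l => κ l = col) := ⟨_, rfl⟩
  rw [← hS']
  have hS'mem : ∀ l ∈ S', l ∈ S ∧ κ l = col := by
    intro l hl
    rw [hS'] at hl
    exact Finset.mem_filter.1 hl
  rcases Nat.lt_or_ge 1 S'.card with hlt | hle
  swap
  · exact hle.trans (Nat.one_le_pow _ _ (by omega))
  obtain ⟨la, hla, lb, hlb, hlab⟩ := Finset.one_lt_card.1 hlt
  have hne' : S'.Nonempty := ⟨la, hla⟩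
  obtain ⟨l0, hl0, hmin⟩ := Finset.exists_min_image S' (fun l => (l.1 : ℝ) / l.2) hne'
  obtain ⟨l1, hl1, hmax1⟩ := Finset.exists_max_image S' (fun l => (l.1 : ℝ) / l.2) hne'
  have hrinj : ∀ l ∈ S, ∀ l' ∈ S, (l.1 : ℝ) / l.2 = (l'.1 : ℝ) / l'.2 → l = l' := by
    intro l hl l' hl' e
    have p1 : (0 : ℝ) < l.2 := by exact_mod_cast (hSprop l hl).1
    have p2 : (0 : ℝ) < l'.2 := by exact_mod_cast (hSprop l' hl').1
    rw [div_eq_div_iff p1.ne' p2.ne'] at e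
    apply hSinj l hl l' hl'
    exact_mod_cast e
  have hx01 : (l0.1 : ℝ) / l0.2 < (l1.1 : ℝ) / l1.2 := by
    by_contra hcon
    push Not at hcon
    apply hlab
    apply hrinj la (hS'mem la hla).1 lb (hS'mem lb hlb).1
    have a1 := hmin la hla
    have a2 := hmax1 la hla
    have b1 := hmin lb hlb
    have b2 := hmax1 lb hlb
    linarith
  have hno : ∀ t ∈ Set.Icc ((l0.1 : ℝ) / l0.2) ((l1.1 : ℝ) / l1.2),
      4 * c4 * t ^ 3 + 3 * c3 * t ^ 2 + c1 ≠ 0 := by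
    intro t ht h0
    have htR := hRmem t h0
    have hk0 := (hS'mem l0 hl0).2
    have hk1 := (hS'mem l1 hl1).2
    have hkk : κ l0 = κ l1 := hk0.trans hk1.symm
    have e1 : (R.filter (fun r => r < (l0.1 : ℝ) / l0.2)).card =
      (R.filter (fun r => r < (l1.1 : ℝ) / l1.2)).card := congrArg Prod.fst hkk
    have e2 : (R.filter (fun r => r ≤ (l0.1 : ℝ) / l0.2)).card =
      (R.filter (fun r => r ≤ (l1.1 : ℝ) / l1.2)).card := congrArg Prod.snd hkk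
    have s1 : R.filter (fun r => r < (l0.1 : ℝ) / l0.2) ⊆ R.filter (fun r => r < (l1.1 : ℝ) / l1.2) := by
      intro r hr
      rw [Finset.mem_filter] at hr ⊢
      exact ⟨hr.1, hr.2.trans hx01⟩
    have s2 : R.filter (fun r => r ≤ (l0.1 : ℝ) / l0.2) ⊆ R.filter (fun r => r ≤ (l1.1 : ℝ) / l1.2) := by
      intro r hr
      rw [Finset.mem_filter] at hr ⊢
      exact ⟨hr.1, hr.2.trans hx01.le⟩
    have q1 := Finset.eq_of_subset_of_card_le s1 e1.ge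
    have q2 := Finset.eq_of_subset_of_card_le s2 e2.ge
    rcases lt_or_eq_of_le ht.2 with h | h
    · have : t ∈ R.filter (fun r => r < (l1.1 : ℝ) / l1.2) := Finset.mem_filter.2 ⟨htR, h⟩
      rw [← q1, Finset.mem_filter] at this
      exact absurd this.2 (not_lt.2 ht.1)
    · have : t ∈ R.filter (fun r => r ≤ (l1.1 : ℝ) / l1.2) := Finset.mem_filter.2 ⟨htR, h.le⟩
      rw [← q2, Finset.mem_filter] at this
      rw [h] at this
      exact absurd this.2 (not_le.2 hx01)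
  have hbet := between (c0 := c0) hx01 hno
  have hend : ∀ l ∈ S, 0 < hh c4 c3 c1 c0 ((l.1 : ℝ) / l.2) ∧
      16 * P ^ 4 * hh c4 c3 c1 c0 ((l.1 : ℝ) / l.2) ≤ V := by
    intro l hl
    obtain ⟨p1, p2, p3, p4⟩ := hSprop l hl
    have p1' : (0 : ℝ) < l.2 := by exact_mod_cast p1
    rw [HH_eq _ _ _ _ _ _ p1'.ne'] at p4
    have p5 : 0 < (l.2 : ℝ) ^ 4 := by positivity
    have p6 : 0 < hh c4 c3 c1 c0 ((l.1 : ℝ) / l.2) := by
      by_contra hcon
      push Not at hcon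
      have := mul_nonpos_of_nonneg_of_nonpos p5.le hcon
      linarith
    refine ⟨p6, ?_⟩
    have p7 : P ^ 4 ≤ 256 ^ 4 * (l.2 : ℝ) ^ 4 := by
      calc P ^ 4 ≤ (256 * (l.2 : ℝ)) ^ 4 := pow_le_pow_left₀ hP.le p3 4
        _ = 256 ^ 4 * (l.2 : ℝ) ^ 4 := by ring
    calc 16 * P ^ 4 * hh c4 c3 c1 c0 ((l.1 : ℝ) / l.2)
        ≤ 16 * (256 ^ 4 * (l.2 : ℝ) ^ 4) * hh c4 c3 c1 c0 ((l.1 : ℝ) / l.2) := by gcongr
      _ = 16 * 256 ^ 4 * ((l.2 : ℝ) ^ 4 * hh c4 c3 c1 c0 ((l.1 : ℝ) / l.2)) := by ring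
      _ = 16 * 256 ^ 4 * (u : ℝ) := by rw [p4]
      _ = (V : ℝ) := hVr.symm
      _ ≤ (V : ℝ) := le_refl _
  obtain ⟨f0, f0'⟩ := hend l0 (hS'mem l0 hl0).1
  obtain ⟨f1, f1'⟩ := hend l1 (hS'mem l1 hl1).1
  apply classBound hc V P ((l0.1 : ℝ) / l0.2) ((l1.1 : ℝ) / l1.2) hP hx01
  · intro t ht
    obtain ⟨g1, g2⟩ := hbet t ht
    constructor
    · exact lt_of_lt_of_le (lt_min f0 f1) g1
    · rcases le_total (hh c4 c3 c1 c0 ((l0.1 : ℝ) / l0.2)) (hh c4 c3 c1 c0 ((l1.1 : ℝ) / l1.2))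
        with h | h
      · rw [max_eq_right h] at g2
        refine le_trans ?_ f1'
        gcongr
      · rw [max_eq_left h] at g2
        refine le_trans ?_ f0'
        gcongr
  · intro l hl
    obtain ⟨p1, p2, p3, _⟩ := hSprop l (hS'mem l hl).1
    exact ⟨p1, p2, p3, hmin l hl, hmax1 l hl⟩
  · intro l hl l' hl' k
    exact hSint l (hS'mem l hl).1 l' (hS'mem l' hl').1 k
  · intro l hl l' hl' e
    exact hSinj l (hS'mem l hl).1 l' (hS'mem l' hl').1 e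

end Pool.Agent.HP42.UF
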