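import Pool.Agent.HP42.SQ.Exact3
import Pool.Agent.HP42.UF.Cnt

/-!
The data of an abc triple with `c ≥ rad (a b c) ^ (1 - 1/2000)` and given square part (helper42).
-/

set_option autoImplicit false

namespace Pool.Agent.HP42.UF

open Finset Pool.Agent.W16.FX Pool.Agent.H785R2.ABC
open Pool.Agent.HP42.SQ (rad_sqf rad_gcd rad_mul_le rad_pow)

theorem dvd_split {x g h m : ℕ} (hx : x ∣ g ^ 3 * h ^ 2 * m) :
    x ∣ Nat.gcd x g ^ 3 * Nat.gcd x h ^ 2 * Nat.gcd x m := by
  have key : ∀ u v : ℕ, Nat.gcd x (u * v) ∣ Nat.gcd x u * Nat.gcd x v := fun u v =>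
    Nat.gcd_mul_right_dvd_mul_gcd x u v
  have h1 : x ∣ Nat.gcd x (g ^ 3 * h ^ 2 * m) := Nat.dvd_gcd (dvd_refl x) hx
  have h2 : Nat.gcd x (g ^ 3) ∣ Nat.gcd x g ^ 3 := by
    have e : g ^ 3 = g * g * g := by ring
    rw [e]
    refine (key _ _).trans ?_
    have : Nat.gcd x g ^ 3 = Nat.gcd x g * Nat.gcd x g * Nat.gcd x g := by ring
    rw [this]
    exact mul_dvd_mul (key _ _) (dvd_refl _)
  have h3 : Nat.gcd x (h ^ 2) ∣ Nat.gcd x h ^ 2 := by
    rw [sq, sq]
    exact key _ _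
  refine h1.trans ((key _ _).trans (mul_dvd_mul ((key _ _).trans (mul_dvd_mul h2 h3)) (dvd_refl _)))

theorem gcd_prod {a b c e : ℕ} (hab : Nat.Coprime a b) (hac : Nat.Coprime a c)
    (hbc : Nat.Coprime b c) (he : e ∣ a * b * c) :
    Nat.gcd a e * Nat.gcd b e * Nat.gcd c e = e := by
  have h1 : Nat.Coprime (a * b) c := Nat.Coprime.mul_left hac hbc
  have h2 := Nat.Coprime.gcd_mul e h1
  have h3 := Nat.Coprime.gcd_mul e hab
  rw [h3] at h2
  rw [Nat.gcd_eq_left he] at h2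
  rw [Nat.gcd_comm a e, Nat.gcd_comm b e, Nat.gcd_comm c e]
  exact h2.symm

theorem split {a b c g h m : ℕ} (ha : 0 < a) (hb : 0 < b) (hc : 0 < c)
    (hab : Nat.Coprime a b) (hac : Nat.Coprime a c) (hbc : Nat.Coprime b c)
    (e : a * b * c = g ^ 3 * h ^ 2 * m) :
    b = Nat.gcd b g ^ 3 * Nat.gcd b h ^ 2 * Nat.gcd b m ∧
    c = Nat.gcd c g ^ 3 * Nat.gcd c h ^ 2 * Nat.gcd c m ∧
    Nat.gcd b g * Nat.gcd c g ≤ g ∧ Nat.gcd b h * Nat.gcd c h ≤ h ∧
    Nat.gcd b m * Nat.gcd c m ≤ m := by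
  have hpos : 0 < g ^ 3 * h ^ 2 * m := by rw [← e]; positivity
  have hg : 0 < g := by
    rcases Nat.eq_zero_or_pos g with h0 | h0
    · rw [h0] at hpos; simp at hpos
    · exact h0
  have hh : 0 < h := by
    rcases Nat.eq_zero_or_pos h with h0 | h0
    · rw [h0] at hpos; simp at hpos
    · exact h0
  have hm : 0 < m := by
    rcases Nat.eq_zero_or_pos m with h0 | h0
    · rw [h0] at hpos; simp at hpos
    · exact h0
  have dg : g ∣ a * b * c := by
    rw [e]
    exact ((dvd_pow_self g (by norm_num)).mul_right _).mul_right _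
  have dh : h ∣ a * b * c := by
    rw [e]
    exact ((dvd_pow_self h (by norm_num)).mul_left _).mul_right _
  have dm : m ∣ a * b * c := by
    rw [e]
    exact dvd_mul_left _ _
  have pg := gcd_prod hab hac hbc dg
  have ph := gcd_prod hab hac hbc dh
  have pm := gcd_prod hab hac hbc dm
  have sa : a ∣ Nat.gcd a g ^ 3 * Nat.gcd a h ^ 2 * Nat.gcd a m :=
    dvd_split (by rw [← e]; exact (Dvd.intro _ rfl).mul_right _)
  have sb : b ∣ Nat.gcd b g ^ 3 * Nat.gcd b h ^ 2 * Nat.gcd b m :=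
    dvd_split (by rw [← e]; exact (Dvd.intro_left _ rfl).mul_right _)
  have sc : c ∣ Nat.gcd c g ^ 3 * Nat.gcd c h ^ 2 * Nat.gcd c m :=
    dvd_split (by rw [← e]; exact Dvd.intro_left _ rfl)
  obtain ⟨k1, hk1⟩ := sa
  obtain ⟨k2, hk2⟩ := sb
  obtain ⟨k3, hk3⟩ := sc
  have hprod : (a * b * c) * (k1 * k2 * k3) = (a * b * c) * 1 := by
    calc (a * b * c) * (k1 * k2 * k3) = (a * k1) * (b * k2) * (c * k3) := by ring
      _ = (Nat.gcd a g * Nat.gcd b g * Nat.gcd c g) ^ 3 * (Nat.gcd a h * Nat.gcd b h * Nat.gcd c h) ^ 2 *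
          (Nat.gcd a m * Nat.gcd b m * Nat.gcd c m) := by
          rw [← hk1, ← hk2, ← hk3]
          ring
      _ = (a * b * c) * 1 := by rw [pg, ph, pm, e, mul_one]
  have hk : k1 * k2 * k3 = 1 := Nat.eq_of_mul_eq_mul_left (by positivity) hprod
  have hk3' : k3 = 1 := Nat.eq_one_of_mul_eq_one_left hk
  have hk12 : k1 * k2 = 1 := Nat.eq_one_of_mul_eq_one_right hk
  have hk2' : k2 = 1 := Nat.eq_one_of_mul_eq_one_left hk12
  refine ⟨?_, ?_, ?_, ?_, ?_⟩
  · rw [hk2, hk2', mul_one]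
  · rw [hk3, hk3', mul_one]
  · calc Nat.gcd b g * Nat.gcd c g = 1 * (Nat.gcd b g * Nat.gcd c g) := (one_mul _).symm
      _ ≤ Nat.gcd a g * (Nat.gcd b g * Nat.gcd c g) :=
          Nat.mul_le_mul_right _ (Nat.gcd_pos_of_pos_left _ ha)
      _ = g := by rw [← mul_assoc]; exact pg
  · calc Nat.gcd b h * Nat.gcd c h = 1 * (Nat.gcd b h * Nat.gcd c h) := (one_mul _).symm
      _ ≤ Nat.gcd a h * (Nat.gcd b h * Nat.gcd c h) :=
          Nat.mul_le_mul_right _ (Nat.gcd_pos_of_pos_left _ ha)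
      _ = h := by rw [← mul_assoc]; exact ph
  · calc Nat.gcd b m * Nat.gcd c m = 1 * (Nat.gcd b m * Nat.gcd c m) := (one_mul _).symm
      _ ≤ Nat.gcd a m * (Nat.gcd b m * Nat.gcd c m) :=
          Nat.mul_le_mul_right _ (Nat.gcd_pos_of_pos_left _ ha)
      _ = m := by rw [← mul_assoc]; exact pm

/-- the data of a violation -/
theorem data {N n m a b c : ℕ} (hn : 1 ≤ n) (hnN : n ≤ N) (ha : 0 < a) (hab : a ≤ b)
    (hc : a + b = c) (e : a * b * c = n ^ 2 * m) (hm : Squarefree m)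
    (hL : 1000 ≤ Real.log N) (hr : (N : ℝ) ^ (1 - 1 / 1000 : ℝ) ≤ rad n)
    (hv : (rad (a * b * c) : ℝ) ^ (1 - 1 / 2000 : ℝ) ≤ c) :
    ∃ g h m' : ℕ, 1 ≤ g ∧ 1 ≤ h ∧ 1 ≤ m' ∧ n = g * h ∧ m = g * m' ∧
      Real.log a + Real.log m' ≤ Real.log g + 3 / 500 * Real.log N ∧
      Real.log c ≤ 3 * Real.log N ∧
      Real.log g + Real.log m' ≤ (1 + 1 / 500) * Real.log c ∧
      (rad (a * b * c) : ℝ) ≤ (N : ℝ) ^ 3 := by
  have hN1 : (1 : ℝ) ≤ N := by exact_mod_cast hn.trans hnN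
  have hN0 : (0 : ℝ) < N := by linarith
  have hn0 : n ≠ 0 := by omega
  have hm0 : m ≠ 0 := hm.ne_zero
  obtain ⟨g, hg⟩ : ∃ g, g = Nat.gcd n m := ⟨_, rfl⟩
  have hgn : g ∣ n := by rw [hg]; exact Nat.gcd_dvd_left _ _
  have hgm : g ∣ m := by rw [hg]; exact Nat.gcd_dvd_right _ _
  have hg1 : 1 ≤ g := by rw [hg]; exact Nat.gcd_pos_of_pos_left _ hn
  obtain ⟨h, hh⟩ := hgn
  obtain ⟨m', hm'⟩ := hgm
  have hh1 : 1 ≤ h := by
    rcases Nat.eq_zero_or_pos h with h0 | h0
    · rw [h0, mul_zero] at hh; exact absurd hh hn0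
    · exact h0
  have hm1 : 1 ≤ m' := by
    rcases Nat.eq_zero_or_pos m' with h0 | h0
    · rw [h0, mul_zero] at hm'; exact absurd hm' hm0
    · exact h0
  have hgsq : Squarefree g := hm.squarefree_of_dvd ⟨m', hm'⟩
  have hrad : rad (a * b * c) = rad n * m' := by
    have e1 : rad (n ^ 2 * m) = rad (n * m) := by
      rw [rad, rad, Nat.primeFactors_mul (pow_ne_zero 2 hn0) hm0,
        Nat.primeFactors_pow n (by omega), Nat.primeFactors_mul hn0 hm0]
    have e2 := rad_gcd hn0 hm0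
    rw [← hg, rad_sqf hgsq, rad_sqf hm, ← e1] at e2
    have e3 : g * rad (n ^ 2 * m) = g * (rad n * m') := by
      calc g * rad (n ^ 2 * m) = rad n * m := by rw [mul_comm]; exact e2
        _ = g * (rad n * m') := by rw [hm']; ring
    rw [e]
    exact Nat.eq_of_mul_eq_mul_left hg1 e3
  have hb : 0 < b := lt_of_lt_of_le ha hab
  have hc0 : 0 < c := by omega
  have ha' : (0 : ℝ) < a := by exact_mod_cast ha
  have hb' : (0 : ℝ) < b := by exact_mod_cast hb
  have hc' : (0 : ℝ) < c := by exact_mod_cast hc0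
  have hg' : (0 : ℝ) < g := by exact_mod_cast hg1
  have hmm' : (0 : ℝ) < m' := by exact_mod_cast hm1
  have hn' : (0 : ℝ) < n := by exact_mod_cast hn
  have hrn : 1 ≤ rad n := by
    unfold rad
    exact Nat.one_le_iff_ne_zero.2 (prod_ne_zero_iff.2 fun p hp =>
      (Nat.prime_of_mem_primeFactors hp).ne_zero)
  have hrn' : (0 : ℝ) < rad n := by exact_mod_cast hrn
  -- logarithms
  have la : 0 ≤ Real.log a := Real.log_natCast_nonneg a
  have lg : 0 ≤ Real.log g := Real.log_natCast_nonneg g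
  have lm : 0 ≤ Real.log m' := Real.log_natCast_nonneg m'
  have lR : Real.log (rad (a * b * c) : ℝ) = Real.log (rad n) + Real.log m' := by
    rw [hrad]
    push_cast
    rw [Real.log_mul hrn'.ne' hmm'.ne']
  have l1 : (1 - 1 / 1000 : ℝ) * Real.log N ≤ Real.log (rad n) := by
    have := Real.log_le_log (by positivity) hr
    rwa [Real.log_rpow hN0] at this
  have l2 : Real.log (rad n) ≤ Real.log N :=
    Real.log_le_log hrn' (by exact_mod_cast (rad_le_self hn).trans hnN)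
  have l3 : (1 - 1 / 2000 : ℝ) * (Real.log (rad n) + Real.log m') ≤ Real.log c := by
    rw [← lR]
    have hR0 : (0 : ℝ) < (rad (a * b * c) : ℝ) := by
      rw [hrad]
      push_cast
      positivity
    have := Real.log_le_log (by positivity) hv
    rwa [Real.log_rpow hR0] at this
  have l4 : Real.log g ≤ Real.log N :=
    Real.log_le_log hg' (by exact_mod_cast (Nat.le_of_dvd hn ⟨h, hh⟩).trans hnN)
  have l5 : Real.log n ≤ Real.log N := Real.log_le_log hn' (by exact_mod_cast hnN)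
  have l6 : Real.log a + 2 * Real.log c ≤ Real.log 2 + 2 * Real.log n + Real.log g +
      Real.log m' := by
    have g1 : a * c ^ 2 ≤ 2 * (n ^ 2 * (g * m')) := by
      rw [← hm', ← e]
      calc a * c ^ 2 = a * c * c := by ring
        _ ≤ a * (2 * b) * c := by
            refine Nat.mul_le_mul_right _ (Nat.mul_le_mul_left _ (by omega))
        _ = 2 * (a * b * c) := by ring
    have g2 : (a : ℝ) * (c : ℝ) ^ 2 ≤ 2 * ((n : ℝ) ^ 2 * (g * m')) := by exact_mod_cast g1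
    have g3 := Real.log_le_log (by positivity) g2
    rw [Real.log_mul ha'.ne' (by positivity), Real.log_pow, Real.log_mul (by norm_num)
      (by positivity), Real.log_mul (by positivity) (by positivity), Real.log_pow,
      Real.log_mul hg'.ne' hmm'.ne'] at g3
    push_cast at g3
    linarith
  have l7 : Real.log 2 < 0.6931471808 := Real.log_two_lt_d9
  refine ⟨g, h, m', hg1, hh1, hm1, hh, hm', by linarith, by linarith, by linarith, ?_⟩
  have l8 : Real.log (rad (a * b * c) : ℝ) ≤ Real.log ((N : ℝ) ^ 3) := by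
    rw [lR, Real.log_pow]
    push_cast
    linarith
  have hR0 : (0 : ℝ) < (rad (a * b * c) : ℝ) := by
    rw [hrad]
    push_cast
    positivity
  exact (Real.log_le_log_iff hR0 (by positivity)).1 l8

end Pool.Agent.HP42.UF
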